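import Pool.Agent.H320.DA.Stm

/-!
Job DA-BND: elements of norm 1 in a division algebra over the q-adic numbers are bounded.
-/

set_option autoImplicit false

namespace Pool.Agent.H320.DA

namespace BNDx

/-- a linear map between finite-dimensional spaces is bounded on balls -/
theorem ball_bound (q : ℕ) [Fact q.Prime] {N : ℕ}
    (L : (Fin N → ℚ_[q]) →ₗ[ℚ_[q]] Matrix (Fin N) (Fin N) ℚ_[q]) (C0 : ℝ) (hC0 : 0 ≤ C0) :
    ∃ C : ℝ, ∀ v : Fin N → ℚ_[q], ‖v‖ ≤ C0 → ∀ i j, ‖L v i j‖ ≤ C := by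
  have h1 : ∀ i j, ∃ K : ℝ, 0 ≤ K ∧ ∀ v : Fin N → ℚ_[q], ‖L v i j‖ ≤ K * ‖v‖ := by
    intro i j
    obtain ⟨l, hl⟩ : ∃ l : (Fin N → ℚ_[q]) →L[ℚ_[q]] ℚ_[q], ∀ v, l v = L v i j :=
      ⟨LinearMap.toContinuousLinearMap (((Matrix.entryLinearMap ℚ_[q] ℚ_[q] i j)).comp L),
        fun v => rfl⟩
    refine ⟨‖l‖, norm_nonneg _, fun v => ?_⟩
    rw [← hl]
    exact l.le_opNorm v
  choose K hK0 hK using h1
  refine ⟨∑ i, ∑ j, K i j * C0, fun v hv i j => ?_⟩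
  have h2 : ‖L v i j‖ ≤ K i j * C0 :=
    (hK i j v).trans (mul_le_mul_of_nonneg_left hv (hK0 i j))
  have h3 : ∀ i j, 0 ≤ K i j * C0 := fun i j => mul_nonneg (hK0 i j) hC0
  refine h2.trans ((Finset.single_le_sum (f := fun j => K i j * C0) (fun j _ => h3 i j)
    (Finset.mem_univ j)).trans ?_)
  exact Finset.single_le_sum (f := fun i => ∑ j, K i j * C0)
    (fun i _ => Finset.sum_nonneg fun j _ => h3 i j) (Finset.mem_univ i)

/-- a continuous homogeneous function without zeros bounds the norm -/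
theorem hom_bound (q : ℕ) [Fact q.Prime] {N : ℕ} (hN : N ≠ 0) (f : (Fin N → ℚ_[q]) → ℚ_[q])
    (hf : Continuous f) (hom : ∀ (c : ℚ_[q]) v, f (c • v) = c ^ N * f v)
    (hne : ∀ v, v ≠ 0 → f v ≠ 0) : ∃ C0 : ℝ, 0 ≤ C0 ∧ ∀ v, ‖f v‖ = 1 → ‖v‖ ≤ C0 := by
  have : Nonempty (Fin N) := ⟨⟨0, Nat.pos_of_ne_zero hN⟩⟩
  have hcomp : IsCompact (Metric.sphere (0 : Fin N → ℚ_[q]) 1) := isCompact_sphere _ _
  have hnes : (Metric.sphere (0 : Fin N → ℚ_[q]) 1).Nonempty :=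
    ⟨fun _ => 1, by rw [mem_sphere_zero_iff_norm, pi_norm_const, norm_one]⟩
  obtain ⟨s0, hs0, hmin⟩ := hcomp.exists_isMinOn hnes (hf.norm.continuousOn)
  have hδ : 0 < ‖f s0‖ := by
    rw [norm_pos_iff]
    refine hne s0 ?_
    rintro rfl
    rw [mem_sphere_zero_iff_norm, norm_zero] at hs0
    exact zero_ne_one hs0
  refine ⟨max 1 (1 / ‖f s0‖), le_max_of_le_left zero_le_one, fun v hv => ?_⟩
  by_cases hv0 : v = 0
  · rw [hv0, norm_zero]
    exact le_max_of_le_left zero_le_one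
  obtain ⟨i, hi⟩ : ∃ i, ‖v‖ = ‖v i‖ := by
    obtain ⟨i, hi⟩ := Finite.exists_max fun i => ‖v i‖
    exact ⟨i, le_antisymm ((pi_norm_le_iff_of_nonneg (norm_nonneg _)).2 hi) (norm_le_pi_norm v i)⟩
  have hc : v i ≠ 0 := by
    intro h
    rw [h, norm_zero, norm_eq_zero] at hi
    exact hv0 hi
  obtain ⟨s, hs⟩ : ∃ s, s = (v i)⁻¹ • v := ⟨_, rfl⟩
  have hvs : v = v i • s := by rw [hs, smul_inv_smul₀ hc]
  have hs1 : ‖s‖ = 1 := by
    rw [hs, norm_smul, norm_inv, hi, inv_mul_cancel₀]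
    rw [norm_ne_zero_iff]
    exact hc
  have h1 : ‖f s0‖ ≤ ‖f s‖ := hmin (mem_sphere_zero_iff_norm.2 hs1)
  have h2 : ‖v‖ ^ N * ‖f s‖ = 1 := by
    rw [← hv, hvs, hom, norm_mul, norm_pow, ← hvs, ← hi]
  have h3 : ‖v‖ ^ N * ‖f s0‖ ≤ 1 := by
    rw [← h2]
    exact mul_le_mul_of_nonneg_left h1 (by positivity)
  rcases le_total ‖v‖ 1 with h | h
  · exact le_max_of_le_left h
  · refine le_max_of_le_right ?_
    rw [le_div_iff₀ hδ]
    refine le_trans ?_ h3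
    exact mul_le_mul_of_nonneg_right (le_self_pow₀ h hN) hδ.le

end BNDx

/-- **BND.** -/
theorem bnd : BND := by
  intro q N _ E _ _ _ b
  by_cases hN : N = 0
  · subst hN
    exact ⟨0, fun _ _ i => i.elim0⟩
  obtain ⟨L, hL⟩ : ∃ L : (Fin N → ℚ_[q]) →ₗ[ℚ_[q]] Matrix (Fin N) (Fin N) ℚ_[q],
      ∀ v, L v = LinearMap.toMatrix b b (LinearMap.mulLeft ℚ_[q] (b.equivFun.symm v)) :=
    ⟨(LinearMap.toMatrix b b).toLinearMap.comp
      ((LinearMap.mul ℚ_[q] E).comp b.equivFun.symm.toLinearMap), fun v => rfl⟩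
  have hLc : Continuous L := LinearMap.continuous_of_finiteDimensional L
  obtain ⟨C0, hC0, hb⟩ := BNDx.hom_bound q hN (fun v => (L v).det) (Continuous.matrix_det hLc)
    (fun c v => by
      change (L (c • v)).det = _
      rw [map_smul, Matrix.det_smul, Fintype.card_fin]) (fun v hv h0 => by
      change (L v).det = 0 at h0
      rw [hL, LinearMap.det_toMatrix] at h0
      have : Module.Finite ℚ_[q] E := Module.Finite.of_basis b
      have h1 := LinearMap.bot_lt_ker_of_det_eq_zero h0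
      obtain ⟨y, hy, hy0⟩ := (Submodule.ne_bot_iff _).1 (ne_of_gt h1)
      rw [LinearMap.mem_ker, LinearMap.mulLeft_apply] at hy
      rcases mul_eq_zero.1 hy with h | h
      · exact hv ((LinearEquiv.map_eq_zero_iff _).1 h)
      · exact hy0 h)
  obtain ⟨C, hC⟩ := BNDx.ball_bound q L C0 hC0
  refine ⟨C, fun x hx i j => ?_⟩
  have h1 : L (b.equivFun x) = LinearMap.toMatrix b b (LinearMap.mulLeft ℚ_[q] x) := by
    rw [hL, LinearEquiv.symm_apply_apply]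
  rw [← h1]
  refine hC _ (hb _ ?_) i j
  rw [h1, LinearMap.det_toMatrix]
  exact hx

end Pool.Agent.H320.DA
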