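import Pool.Agent.H320.DA.Stm
import Pool.Agent.H320.GS.Uni
import Pool.Agent.H320.GS.Cond

/-!
helper320: subgroups of norm one of division algebras over the rational numbers: the data at one
prime.
-/

set_option autoImplicit false

open scoped TensorProduct
open Polynomial

namespace Pool.Agent.H320.DA

open Pool.Agent.H371.SA Pool.Agent.H371.SB Pool.Agent.H320.TF
open Pool.Agent.H320.PG

section basic
variable {q N : ℕ} [Fact q.Prime]

theorem mq_inj : Function.Injective (mq q (N := N)) := by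
  intro A B h
  ext i j
  exact Subtype.ext (congrFun (congrFun h i) j)

theorem mq_mul (A B : Matrix (Fin N) (Fin N) ℤ_[q]) : mq q (A * B) = mq q A * mq q B :=
  map_mul _ _ _

theorem mq_one : mq q (1 : Matrix (Fin N) (Fin N) ℤ_[q]) = 1 := map_one _

theorem mq_pow (A : Matrix (Fin N) (Fin N) ℤ_[q]) (k : ℕ) : mq q (A ^ k) = mq q A ^ k :=
  map_pow _ _ _

theorem mq_det (A : Matrix (Fin N) (Fin N) ℤ_[q]) : (mq q A).det = ((A.det : ℤ_[q]) : ℚ_[q]) :=
  ((PadicInt.Coe.ringHom (p := q)).map_det A).symm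

/-- the powers of the element with the given matrix -/
theorem conj_pow {E : Type} [Ring E] [Algebra ℚ_[q] E] (b : Module.Basis (Fin N) ℚ_[q] E)
    {P P' : Matrix (Fin N) (Fin N) ℚ_[q]} (h1 : P * P' = 1) (h2 : P' * P = 1)
    {t : Matrix (Fin N) (Fin N) ℤ_[q]} {y : E}
    (hy : Algebra.leftMulMatrix b y = P' * mq q t * P) (k : ℕ) :
    Algebra.leftMulMatrix b (y ^ k) = P' * mq q (t ^ k) * P := by
  induction k with
  | zero => rw [pow_zero, pow_zero, map_one, mq_one, mul_one, h2]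
  | succ k ih =>
    rw [pow_succ, map_mul, ih, hy, pow_succ, mq_mul]
    calc P' * mq q (t ^ k) * P * (P' * mq q t * P)
        = P' * mq q (t ^ k) * (P * P') * mq q t * P := by simp only [mul_assoc]
      _ = P' * (mq q (t ^ k) * mq q t) * P := by rw [h1, mul_one]; simp only [mul_assoc]

/-- the condition at `q` for the prime `l` -/
def Cnd (q l N : ℕ) : Prop :=
  q = l ∨ ¬ orderOf (q : ZMod l) ∣ N ∨ (orderOf (q : ZMod l) = 1 ∧ ¬ l ∣ N)

/-- no torsion -/
theorem tq (rua : RUA) (sca : SCA) {l : ℕ} (hl : l.Prime) (hN : Odd N) (hc : Cnd q l N)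
    {E : Type} [Ring E] [Algebra ℚ_[q] E] [NoZeroDivisors E] (b : Module.Basis (Fin N) ℚ_[q] E)
    {P P' : Matrix (Fin N) (Fin N) ℚ_[q]} (h1 : P * P' = 1) (h2 : P' * P = 1)
    {t : Matrix (Fin N) (Fin N) ℤ_[q]} (hdet : t.det = 1) {y : E}
    (hy : LinearMap.toMatrix b b (LinearMap.mulLeft ℚ_[q] y) = P' * mq q t * P)
    (htl : t ^ l = 1) : t = 1 := by
  have hq : q.Prime := Fact.out
  have hy' : Algebra.leftMulMatrix b y = P' * mq q t * P := hy
  have hpow := conj_pow b h1 h2 hy'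
  have hyl : y ^ l = 1 := by
    apply Algebra.leftMulMatrix_injective b
    rw [hpow, htl, mq_one, mul_one, h2, map_one]
  have back : y = 1 → t = 1 := by
    intro h
    rw [h, map_one] at hy'
    apply mq_inj (q := q)
    rw [mq_one]
    calc mq q t = P * P' * mq q t * (P * P') := by rw [h1, one_mul, mul_one]
      _ = P * (P' * mq q t * P) * P' := by simp only [mul_assoc]
      _ = 1 := by rw [← hy', mul_one, h1]
  have h3 : (∑ i ∈ Finset.range l, y ^ i) * (y - 1) = 0 := by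
    rw [geom_sum_mul, hyl, sub_self]
  rcases mul_eq_zero.1 h3 with h4 | h4
  swap
  · exact back (sub_eq_zero.1 h4)
  have h5 : ∑ i ∈ Finset.range l, t ^ i = 0 := by
    have e1 : P' * mq q (∑ i ∈ Finset.range l, t ^ i) * P = 0 := by
      have e2 : mq q (∑ i ∈ Finset.range l, t ^ i) = ∑ i ∈ Finset.range l, mq q (t ^ i) :=
        map_sum (PadicInt.Coe.ringHom (p := q)).mapMatrix _ _
      rw [e2, Finset.mul_sum, Finset.sum_mul]
      rw [← Finset.sum_congr rfl (fun i _ => hpow i), ← map_sum, h4, map_zero]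
    apply mq_inj (q := q)
    have e3 : mq q (0 : Matrix (Fin N) (Fin N) ℤ_[q]) = 0 :=
      map_zero (PadicInt.Coe.ringHom (p := q)).mapMatrix
    rw [e3]
    calc mq q (∑ i ∈ Finset.range l, t ^ i)
        = P * P' * mq q (∑ i ∈ Finset.range l, t ^ i) * (P * P') := by rw [h1, one_mul, mul_one]
      _ = P * (P' * mq q (∑ i ∈ Finset.range l, t ^ i) * P) * P' := by simp only [mul_assoc]
      _ = 0 := by rw [e1, mul_zero, zero_mul]
  by_cases hql : q = l
  · subst hql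
    exfalso
    have h6 := dvd_of_geom q N t hN.pos h5
    rcases hq.eq_two_or_odd' with h7 | hodd
    · subst h7
      rw [Finset.sum_range_succ, Finset.sum_range_one, pow_zero, pow_one] at h5
      have h8 : t = -1 := by rw [← sub_eq_zero, sub_neg_eq_add, add_comm]; exact h5
      rw [h8, Matrix.det_neg, Fintype.card_fin, hN.neg_one_pow, Matrix.det_one, mul_one] at hdet
      have h9 : (2 : ℤ_[2]) = 0 := by linear_combination -hdet
      exact two_ne_zero h9
    · obtain ⟨a, ha⟩ := hodd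
      obtain ⟨b', hb⟩ := h6
      obtain ⟨c, hc'⟩ := hN
      have h10 : q - 1 = 2 * a := by omega
      rw [h10] at hb
      have h11 : N = 2 * (a * b') := by rw [hb]; ring
      omega
  · have hlq : l ≠ q := fun h => hql h.symm
    have h6 : orderOf (q : ZMod l) ∣ N := by
      refine rua q l N hl hlq (mz q t) ?_
      have e1 : mz q (∑ i ∈ Finset.range l, t ^ i) = ∑ i ∈ Finset.range l, (mz q t) ^ i := by
        unfold mz
        rw [map_sum]
        exact Finset.sum_congr rfl fun i _ => map_pow _ _ _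
      rw [← e1, h5]
      exact map_zero _
    rcases hc with h7 | h7 | h7
    · exact absurd h7 hql
    · exact absurd h6 h7
    · apply back
      have h8 : (q : ZMod l) = 1 := orderOf_eq_one_iff.1 h7.1
      have h9 : l ∣ q - 1 := by
        have h10 : ((q - 1 : ℕ) : ZMod l) = 0 := by
          rw [Nat.cast_sub hq.one_lt.le, h8, Nat.cast_one, sub_self]
        exact (ZMod.natCast_eq_zero_iff _ _).1 h10
      refine sca q l N E b y hl h9 h7.2 hyl ?_
      rw [← LinearMap.det_toMatrix b, hy, Matrix.det_mul, Matrix.det_mul, mq_det, hdet,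
        PadicInt.coe_one, mul_one, ← Matrix.det_mul, h2, Matrix.det_one]

end basic

/-- the homomorphism to the matrices over `ℤ_p` -/
theorem exists_phi (p N : ℕ) [Fact p.Prime] {G : Type} [Group G]
    (Λ : G →* Matrix (Fin N) (Fin N) ℚ_[p]) (h : ∀ g i j, ‖Λ g i j‖ ≤ 1) :
    ∃ φ : G →* (Matrix (Fin N) (Fin N) ℤ_[p])ˣ,
      ∀ g, mq p ((φ g : (Matrix (Fin N) (Fin N) ℤ_[p])ˣ) : Matrix (Fin N) (Fin N) ℤ_[p]) = Λ g := by
  let f : G → Matrix (Fin N) (Fin N) ℤ_[p] := fun g => Matrix.of fun i j => ⟨Λ g i j, h g i j⟩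
  have hf : ∀ g, mq p (f g) = Λ g := fun g => by
    ext i j
    rfl
  let F : G →* Matrix (Fin N) (Fin N) ℤ_[p] :=
    { toFun := f
      map_one' := by
        apply mq_inj (q := p)
        rw [hf, mq_one, map_one]
      map_mul' := fun x y => by
        apply mq_inj (q := p)
        rw [hf, mq_mul, hf, hf, map_mul] }
  exact ⟨F.toHomUnits, fun g => hf g⟩

/-- the reduction modulo `p` -/
theorem quo_im (p N : ℕ) [Fact p.Prime] {G : Type} [Group G]
    (φ : G →* (Matrix (Fin N) (Fin N) ℤ_[p])ˣ) :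
    ∃ r : ℕ, r ≠ 0 ∧ Quo p r φ ∧ ∀ l : ℕ, l.Prime → l ∣ r → ∃ g : G,
      mz p ((φ g : (Matrix (Fin N) (Fin N) ℤ_[p])ˣ) : Matrix (Fin N) (Fin N) ℤ_[p]) ^ l = 1 ∧
      mz p ((φ g : (Matrix (Fin N) (Fin N) ℤ_[p])ˣ) : Matrix (Fin N) (Fin N) ℤ_[p]) ≠ 1 := by
  classical
  let ρ : Matrix (Fin N) (Fin N) ℤ_[p] →+* Matrix (Fin N) (Fin N) (ZMod p) :=
    RingHom.mapMatrix PadicInt.toZMod
  let π : G →* (Matrix (Fin N) (Fin N) (ZMod p))ˣ := (Units.map (ρ : _ →* _)).comp φ
  have hπ : ∀ g, ((π g : (Matrix (Fin N) (Fin N) (ZMod p))ˣ) : Matrix (Fin N) (Fin N) (ZMod p)) =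
      mz p ((φ g : (Matrix (Fin N) (Fin N) ℤ_[p])ˣ) : Matrix (Fin N) (Fin N) ℤ_[p]) := fun g => rfl
  have hfin : Finite π.range := inferInstance
  refine ⟨Nat.card π.range, Nat.card_pos.ne', ?_, ?_⟩
  · refine ⟨π.range, inferInstance, inferInstance, π.rangeRestrict, 0, ?_, ?_⟩
    · rw [pow_zero, mul_one]
    · intro h hh
      have h1 : π h = 1 :=
        congrArg (fun x : π.range => (x : (Matrix (Fin N) (Fin N) (ZMod p))ˣ)) hh
      have h2 := congrArg (fun x : (Matrix (Fin N) (Fin N) (ZMod p))ˣ =>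
        (x : Matrix (Fin N) (Fin N) (ZMod p))) h1
      have h3 : ∀ i j, ∃ m : ℤ_[p],
          ((φ h : (Matrix (Fin N) (Fin N) ℤ_[p])ˣ) : Matrix (Fin N) (Fin N) ℤ_[p]) i j =
            (1 : Matrix (Fin N) (Fin N) ℤ_[p]) i j + (p : ℤ_[p]) * m := by
        intro i j
        have h4 := congrFun (congrFun h2 i) j
        have h5 : PadicInt.toZMod (((φ h : (Matrix (Fin N) (Fin N) ℤ_[p])ˣ) :
            Matrix (Fin N) (Fin N) ℤ_[p]) i j - (1 : Matrix (Fin N) (Fin N) ℤ_[p]) i j) = 0 := by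
          rw [map_sub, sub_eq_zero]
          change PadicInt.toZMod _ = (1 : Matrix (Fin N) (Fin N) (ZMod p)) i j at h4
          rw [h4, Matrix.one_apply, Matrix.one_apply]
          split_ifs <;> simp
        have h6 : (((φ h : (Matrix (Fin N) (Fin N) ℤ_[p])ˣ) :
            Matrix (Fin N) (Fin N) ℤ_[p]) i j - (1 : Matrix (Fin N) (Fin N) ℤ_[p]) i j) ∈
              RingHom.ker (PadicInt.toZMod (p := p)) := h5
        rw [PadicInt.ker_toZMod, PadicInt.maximalIdeal_eq_span_p, Ideal.mem_span_singleton] at h6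
        obtain ⟨m, hm⟩ := h6
        exact ⟨m, by rw [← hm]; ring⟩
      choose m hm using h3
      refine ⟨Matrix.of m, ?_⟩
      rw [pow_one]
      ext i j
      rw [Matrix.add_apply, hm i j]
      have h6 : ((p : Matrix (Fin N) (Fin N) ℤ_[p]) * (Matrix.of m)) i j =
          (p : ℤ_[p]) * m i j := by
        rw [← nsmul_eq_mul, Matrix.smul_apply, nsmul_eq_mul]
        rfl
      rw [h6]
  · intro l hl hlr
    have : Fact l.Prime := ⟨hl⟩
    obtain ⟨x, hx⟩ := exists_prime_orderOf_dvd_card' l hlr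
    obtain ⟨g, hg⟩ := x.2
    refine ⟨g, ?_, ?_⟩
    · have h1 : x ^ l = 1 := by rw [← hx]; exact pow_orderOf_eq_one x
      have h2 : (π g) ^ l = 1 := by
        rw [hg]
        exact congrArg (fun x : π.range => (x : (Matrix (Fin N) (Fin N) (ZMod p))ˣ)) h1
      rw [← hπ, ← Units.val_pow_eq_pow_val, h2, Units.val_one]
    · intro h
      rw [← hπ] at h
      have h2 : π g = 1 := Units.ext h
      have h3 : x = 1 := by
        apply Subtype.ext
        rw [← hg, h2]
        rfl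
      rw [h3, orderOf_one] at hx
      exact hl.one_lt.ne hx

theorem sep_self (p N : ℕ) [Fact p.Prime] {G : Type} [Group G]
    (φ : G →* (Matrix (Fin N) (Fin N) ℤ_[p])ˣ) (hφ : Function.Injective φ) : Sep p φ := by
  intro g hg
  exact ⟨2, Matrix (Fin N) (Fin N) ℤ_[p], inferInstance, inferInstance, inferInstance,
    inferInstance, φ, fun _ h => h, fun h => hg (hφ (by rw [h, map_one]))⟩

/-- case A: the prime `q`, at which the division algebra stays a division algebra -/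
theorem caseA (rua : RUA) (sca : SCA) (tei : TEI) (lat : LAT) (bnd : BND) (clo : CLO)
    (q l N : ℕ) [hq : Fact q.Prime] (hl : l.Prime) (hN : Odd N) (hc : Cnd q l N)
    (D : Type) [Ring D] [Algebra ℚ D] (b₀ : Module.Basis (Fin N) ℚ D)
    (hE : NoZeroDivisors (ℚ_[q] ⊗[ℚ] D)) (G : Type) [Group G] (f : G →* Dˣ)
    (hf : Function.Injective f)
    (hdet : ∀ g, LinearMap.det (LinearMap.mulLeft ℚ ((f g : Dˣ) : D)) = 1) :
    Pool.Agent.H320.PG.D l q G 1 := by
  classical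
  set b : Module.Basis (Fin N) ℚ_[q] (ℚ_[q] ⊗[ℚ] D) :=
    Algebra.TensorProduct.basis ℚ_[q] b₀ with hb
  let x : G →* (ℚ_[q] ⊗[ℚ] D) :=
    ((Algebra.TensorProduct.includeRight : D →ₐ[ℚ] ℚ_[q] ⊗[ℚ] D) : D →* ℚ_[q] ⊗[ℚ] D).comp
      ((Units.coeHom D).comp f)
  have hx : ∀ g, x g = (1 : ℚ_[q]) ⊗ₜ[ℚ] ((f g : Dˣ) : D) := fun g => rfl
  have hml : ∀ g, LinearMap.mulLeft ℚ_[q] (x g) =
      (LinearMap.mulLeft ℚ ((f g : Dˣ) : D)).baseChange ℚ_[q] := by
    intro g
    refine LinearMap.ext fun v => ?_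
    rw [hx]
    induction v with
    | zero => simp
    | tmul c r => simp
    | add v w hv hw => rw [map_add, map_add, hv, hw]
  let Λ : G →* Matrix (Fin N) (Fin N) ℚ_[q] :=
    ((Algebra.leftMulMatrix b : _ →ₐ[ℚ_[q]] _) : _ →* _).comp x
  have hΛ0 : ∀ g, Λ g = LinearMap.toMatrix b b (LinearMap.mulLeft ℚ_[q] (x g)) := fun g => rfl
  have hΛ : ∀ g, Λ g = (LinearMap.toMatrix b₀ b₀ (LinearMap.mulLeft ℚ ((f g : Dˣ) : D))).map
      (algebraMap ℚ ℚ_[q]) := by
    intro g
    rw [hΛ0, hml, hb, LinearMap.toMatrix_baseChange]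
  have hΛd : ∀ g, (Λ g).det = 1 := by
    intro g
    rw [hΛ]
    have h1 := (algebraMap ℚ ℚ_[q]).map_det
      (LinearMap.toMatrix b₀ b₀ (LinearMap.mulLeft ℚ ((f g : Dˣ) : D)))
    rw [RingHom.mapMatrix_apply] at h1
    rw [← h1, LinearMap.det_toMatrix, hdet, map_one]
  have hΛi : Function.Injective Λ := by
    intro g h hgh
    apply hf
    apply Units.ext
    rw [hΛ, hΛ] at hgh
    have h1 : LinearMap.toMatrix b₀ b₀ (LinearMap.mulLeft ℚ ((f g : Dˣ) : D)) =
        LinearMap.toMatrix b₀ b₀ (LinearMap.mulLeft ℚ ((f h : Dˣ) : D)) :=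
      Matrix.map_injective (algebraMap ℚ ℚ_[q]).injective hgh
    exact Algebra.leftMulMatrix_injective b₀ h1
  obtain ⟨C, hC⟩ := bnd q N _ b
  obtain ⟨P, P', h1, h2, h3⟩ := lat q N G Λ C (fun g => hC (x g) (by
    rw [← LinearMap.det_toMatrix b, ← hΛ0, hΛd, norm_one]))
  -- the conjugate representation
  let Λ' : G →* Matrix (Fin N) (Fin N) ℚ_[q] :=
    { toFun := fun g => P * Λ g * P'
      map_one' := by rw [map_one, mul_one, h1]
      map_mul' := fun g h => by
        rw [map_mul]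
        calc P * (Λ g * Λ h) * P' = P * Λ g * 1 * Λ h * P' := by
              rw [mul_one]; simp only [mul_assoc]
          _ = P * Λ g * P' * (P * Λ h * P') := by rw [← h2]; simp only [mul_assoc] }
  have hΛ' : ∀ g, Λ' g = P * Λ g * P' := fun g => rfl
  obtain ⟨φ, hφ⟩ := exists_phi q N Λ' h3
  have hΛφ : ∀ g, Λ g = P' * mq q ((φ g : (Matrix (Fin N) (Fin N) ℤ_[q])ˣ) :
      Matrix (Fin N) (Fin N) ℤ_[q]) * P := by
    intro g
    rw [hφ, hΛ']
    calc Λ g = (P' * P) * Λ g * (P' * P) := by rw [h2, one_mul, mul_one]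
      _ = _ := by simp only [mul_assoc]
  have hφi : Function.Injective φ := by
    intro g h hgh
    apply hΛi
    rw [hΛφ, hΛφ, hgh]
  have hφd : ∀ g, ((φ g : (Matrix (Fin N) (Fin N) ℤ_[q])ˣ) :
      Matrix (Fin N) (Fin N) ℤ_[q]).det = 1 := by
    intro g
    have h4 := mq_det ((φ g : (Matrix (Fin N) (Fin N) ℤ_[q])ˣ) : Matrix (Fin N) (Fin N) ℤ_[q])
    rw [hφ, hΛ', Matrix.det_mul, Matrix.det_mul, hΛd, mul_one, ← Matrix.det_mul, h1,
      Matrix.det_one] at h4
    exact Subtype.ext h4.symm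
  have key : ∀ l' : ℕ, l'.Prime → Cnd q l' N → ∀ t, Lm q φ t → t ^ l' = 1 → t = 1 := by
    intro l' hl' hc' t ht htl
    obtain ⟨h4, y, hy⟩ := clo q N _ b G φ x P P' h1 h2 hΛφ hφd t ht
    exact tq rua sca hl' hN hc' b h1 h2 h4 hy htl
  have hnoT : NoT q φ := fun t ht htq => key q hq.out (Or.inl rfl) t ht htq
  obtain ⟨r, hr0, hquo, hr⟩ := quo_im q N φ
  -- the prime to `q` part of `r`
  obtain ⟨b', r', hr', hcard⟩ := Nat.exists_eq_pow_mul_and_not_dvd hr0 q hq.out.ne_one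
  have hquo' : Quo q r' φ := by
    obtain ⟨F, i1, i2, π, b'', hF, h⟩ := hquo
    refine ⟨F, i1, i2, π, b' + b'', ?_, h⟩
    have e1 : r * q ^ b'' = r' * q ^ (b' + b'') := by rw [hcard]; ring
    rwa [e1] at hF
  refine ⟨hq, 1, r', GS.of_noT φ hnoT (sep_self q N φ hφi) hquo', r', ?_, dvd_rfl⟩
  intro hlr
  by_cases hlq : l = q
  · exact hr' (hlq ▸ hlr)
  · obtain ⟨g, hg1, hg2⟩ := hr l hl (hcard ▸ hlr.mul_left _)
    obtain ⟨t, ht, htl, ht1⟩ := tei q l N hl hlq G φ g hg1 hg2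
    exact ht1 (key l hl hc t ht htl)

/-- case B: large primes at which the group is integral -/
theorem caseB (rub : RUB) (red : RED) (den : DEN) (e N : ℕ)
    (D : Type) [Ring D] [Algebra ℚ D] (b₀ : Module.Basis (Fin N) ℚ D)
    (hdeg : ∀ x : D, ∃ P : ℚ[X], P ≠ 0 ∧ P.natDegree ≤ e ∧ aeval x P = 0)
    (G : Type) [Group G] (hG : Group.FG G) (f : G →* Dˣ) (hf : Function.Injective f) :
    ∃ m : ℕ, ∀ l : ℕ, l.Prime → e + 1 < l → ∀ p, m < p → p.Prime →
      orderOf (p : ZMod l) = l - 1 → Pool.Agent.H320.PG.D l p G 1 := by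
  classical
  let Λ : G →* Matrix (Fin N) (Fin N) ℚ :=
    ((Algebra.leftMulMatrix b₀ : _ →ₐ[ℚ] _) : _ →* _).comp ((Units.coeHom D).comp f)
  have hΛi : Function.Injective Λ := by
    intro g h hgh
    apply hf
    apply Units.ext
    exact Algebra.leftMulMatrix_injective b₀ hgh
  obtain ⟨m, hm⟩ := den N G Λ hG
  refine ⟨max m (N + 1), fun l hl hel p hp hpp hord => ?_⟩
  have hp' : Fact p.Prime := ⟨hpp⟩
  have hlp : l ≠ p := by
    intro h
    subst h
    rw [CharP.cast_eq_zero, orderOf_zero] at hord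
    have := hl.two_le
    omega
  let ρ : Matrix (Fin N) (Fin N) ℚ →+* Matrix (Fin N) (Fin N) ℚ_[p] :=
    RingHom.mapMatrix (algebraMap ℚ ℚ_[p])
  let Λp : G →* Matrix (Fin N) (Fin N) ℚ_[p] := (ρ : _ →* _).comp Λ
  have hΛp : ∀ g, Λp g = (Λ g).map (algebraMap ℚ ℚ_[p]) := fun g => rfl
  obtain ⟨φ, hφ⟩ := exists_phi p N Λp (fun g i j =>
    hm p (lt_of_le_of_lt (le_max_left _ _) hp) g i j)
  have hφi : Function.Injective φ := by
    intro g h hgh
    apply hΛi
    have h1 : Λp g = Λp h := by rw [← hφ, ← hφ, hgh]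
    rw [hΛp, hΛp] at h1
    exact Matrix.map_injective (algebraMap ℚ ℚ_[p]).injective h1
  obtain ⟨r, hr0, hquo, hr⟩ := quo_im p N φ
  have hcc : cc p N = 1 := cc_one_of_lt (lt_of_le_of_lt (le_max_right _ _) hp)
  have hGS := GS.of_cc φ (sep_self p N φ hφi) hquo
  rw [hcc] at hGS
  refine ⟨hp', 1, r, hGS, r, ?_, dvd_rfl⟩
  intro hlr
  obtain ⟨g, hg1, hg2⟩ := hr l hl hlr
  apply hg2
  obtain ⟨P, hP0, hPd, hP⟩ := hdeg ((f g : Dˣ) : D)
  obtain ⟨Q, hQ0, hQd, hQ⟩ := red p e N ((φ g : (Matrix (Fin N) (Fin N) ℤ_[p])ˣ) :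
    Matrix (Fin N) (Fin N) ℤ_[p]) (P.map (algebraMap ℚ ℚ_[p]))
    ((Polynomial.map_ne_zero_iff (algebraMap ℚ ℚ_[p]).injective).2 hP0)
    (by rw [Polynomial.natDegree_map]; exact hPd) (by
      rw [hφ, hΛp]
      have h1 : aeval (Λ g) P = 0 := by
        have h2 := Polynomial.aeval_algHom_apply (Algebra.leftMulMatrix b₀) ((f g : Dˣ) : D) P
        rw [hP, map_zero] at h2
        exact h2
      have h3 := congrArg (algebraMap ℚ ℚ_[p]).mapMatrix h1
      rw [map_zero] at h3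
      rw [← h3, aeval_def, eval₂_map, aeval_def, hom_eval₂]
      congr 1
      exact Subsingleton.elim _ _)
  exact rub p l e N hl hlp (by rw [hord]; omega) _ Q hQ0 hQd hQ hg1

end Pool.Agent.H320.DA
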