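import Pool.Agent.H320.DA.Gen

/-!
helper320: a class of groups which is uniform in the choice of the large primes, with one prime
`π l` for each small prime `l`.
-/

set_option autoImplicit false

open Polynomial

namespace Pool.Agent.H320.DA

open Monoid
open Pool.Agent.H371.SA Pool.Agent.H371.SB Pool.Agent.H320.TF
open Pool.Agent.H320.PG Pool.Agent.W656.VA Pool.Agent.H320.CF

/-- the roots of unity of order `l` have degree at most `e` over `K` -/
def Small (K : Type) [Field K] (e l : ℕ) : Prop :=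
  ∃ ζ : AlgebraicClosure K, IsPrimitiveRoot ζ l ∧ (minpoly K ζ).natDegree ≤ e

/-- for every finitely generated subgroup there are data at `π l` if `l` is small, and at the large
primes in `PK` otherwise -/
def UG (K : Type) [Field K] (π : ℕ → ℕ) (e : ℕ) (G : Type) [Group G] : Prop :=
  ∀ H : Subgroup G, H.FG → ∃ T : Finset K, ∀ l : ℕ, l.Prime →
    (Small K e l → Pool.Agent.H320.PG.D l (π l) H 1) ∧
      (¬ Small K e l → ∃ E : ℕ, ∀ p, E < p → PK K T l E p → Pool.Agent.H320.PG.D l p H 1)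

section
variable {K : Type} [Field K] {π : ℕ → ℕ} {e : ℕ}

theorem UG.sub {G H : Type} [Group G] [Group H] (f : H →* G)
    (hf : Function.Injective f) (hG : UG K π e G) : UG K π e H := by
  intro A hA
  obtain ⟨T, hT⟩ := hG (A.map f) (fg_map f hA)
  let g : A →* A.map f := (f.comp A.subtype).codRestrict (A.map f) (fun k => ⟨k, k.2, rfl⟩)
  have hg : Function.Injective g := by
    intro a b hab
    exact Subtype.ext (hf (congrArg (fun w : A.map f => (w : G)) hab))
  refine ⟨T, fun l hl => ⟨fun h => ((hT l hl).1 h).sub g hg, fun h => ?_⟩⟩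
  obtain ⟨E, hE⟩ := (hT l hl).2 h
  exact ⟨E, fun p hp hpp => (hE p hp hpp).sub g hg⟩

theorem UG.prod {G H : Type} [Group G] [Group H] (hG : UG K π e G)
    (hH : UG K π e H) : UG K π e (G × H) := by
  classical
  intro A hA
  obtain ⟨T, hT⟩ := hG (A.map (MonoidHom.fst G H)) (fg_map _ hA)
  obtain ⟨T', hT'⟩ := hH (A.map (MonoidHom.snd G H)) (fg_map _ hA)
  let g₁ : A →* A.map (MonoidHom.fst G H) :=
    ((MonoidHom.fst G H).comp A.subtype).codRestrict (A.map (MonoidHom.fst G H))
      (fun k => ⟨k, k.2, rfl⟩)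
  let g₂ : A →* A.map (MonoidHom.snd G H) :=
    ((MonoidHom.snd G H).comp A.subtype).codRestrict (A.map (MonoidHom.snd G H))
      (fun k => ⟨k, k.2, rfl⟩)
  let g : A →* A.map (MonoidHom.fst G H) × A.map (MonoidHom.snd G H) := g₁.prod g₂
  have hg : Function.Injective g := by
    intro a b hab
    have h1 := congrArg (fun w : A.map (MonoidHom.fst G H) × A.map (MonoidHom.snd G H) =>
      ((w.1 : G), (w.2 : H))) hab
    exact Subtype.ext h1
  refine ⟨T ∪ T', fun l hl => ⟨fun h => ?_, fun h => ?_⟩⟩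
  · have h1 := (D.prod hl ((hT l hl).1 h) ((hT' l hl).1 h)).sub g hg
    exact h1
  · obtain ⟨E, hE⟩ := (hT l hl).2 h
    obtain ⟨E', hE'⟩ := (hT' l hl).2 h
    refine ⟨max E E', fun p hp hpp => ?_⟩
    have h1 := (D.prod hl (hE p ?_ ?_) (hE' p ?_ ?_)).sub g hg
    · exact h1
    · exact lt_of_le_of_lt (le_max_left _ _) hp
    · exact hpp.mono Finset.subset_union_left (le_max_left _ _)
    · exact lt_of_le_of_lt (le_max_right _ _) hp
    · exact hpp.mono Finset.subset_union_right (le_max_right _ _)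

theorem UG.free {G : Type} [Group G] (k : ℕ) (hG : UG K π e G) :
    UG K π e (Coprod G (FreeGroup (Fin k))) := by
  intro B hB
  obtain ⟨S, hS⟩ := hB
  obtain ⟨A, hA, hSA⟩ := exists_fg_finset S
  obtain ⟨T, hT⟩ := hG A hA
  set φ := Coprod.map A.subtype (MonoidHom.id (FreeGroup (Fin k))) with hφ
  have hKA : B ≤ φ.range := by
    rw [← hS, Subgroup.closure_le]
    exact hSA
  let g : B →* Coprod A (FreeGroup (Fin k)) :=
    ((MonoidHom.ofInjective (map_inj' (F := FreeGroup (Fin k)) A)).symm.toMonoidHom).comp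
      (Subgroup.inclusion hKA)
  have hg : Function.Injective g :=
    (MonoidHom.ofInjective (map_inj' (F := FreeGroup (Fin k)) A)).symm.injective.comp
      (Subgroup.inclusion_injective hKA)
  refine ⟨T, fun l hl => ⟨fun h => (((hT l hl).1 h).free k).sub g hg, fun h => ?_⟩⟩
  obtain ⟨E, hE⟩ := (hT l hl).2 h
  exact ⟨E, fun p hp hpp => ((hE p hp hpp).free k).sub g hg⟩

theorem UG.main [CharZero K] {G : Type} [Group G] (hG : UG K π e G)
    (v : ℝ) (hv : Val (⊤ : Subring ℂ) G v) : ∃ z : ℤ, v = z := by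
  classical
  have h0 : ∃ z : ℤ, ((1 : ℕ) : ℝ) * v = z := by
    refine val_of_fg (fun H hH v hv => ?_) v hv
    obtain ⟨T, hT⟩ := hG H hH
    have h1 : ∀ l : ℕ, ∃ p : ℕ, l.Prime → Pool.Agent.H320.PG.D l p H 1 := by
      intro l
      by_cases hl : l.Prime
      · by_cases hs : Small K e l
        · exact ⟨π l, fun _ => (hT l hl).1 hs⟩
        · obtain ⟨E, hE⟩ := (hT l hl).2 hs
          obtain ⟨p, hp, hpp⟩ := exist K T l E E hl
          exact ⟨p, fun _ => hE p hp hpp⟩
      · exact ⟨0, fun h => absurd h hl⟩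
    choose ϖ hϖ using h1
    exact CP.main (π := ϖ) ⟨one_pos, fun l hl => hϖ l hl⟩ v hv
  obtain ⟨z, hz⟩ := h0
  exact ⟨z, by rw [← hz]; simp⟩

end

/-- `σ` is an embedding of `K` in a finite extension `L` of `ℚ_q` such that the closure of the
image of `G` is compact and has no elements of order `l` or `q` -/
def Place (K : Type) [Field K] (l q : ℕ) [Fact q.Prime] {N : ℕ} {G : Type} [Group G]
    (f : G →* (Matrix (Fin N) (Fin N) K)ˣ) : Prop :=
  ∃ (L : Type) (_ : NontriviallyNormedField L) (_ : NormedAlgebra ℚ_[q] L)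
    (_ : FiniteDimensional ℚ_[q] L) (σ : K →+* L),
    (∃ C : ℝ, ∀ g i j, ‖σ (((f g : (Matrix (Fin N) (Fin N) K)ˣ) : Matrix (Fin N) (Fin N) K) i j)‖
      ≤ C) ∧
    ∀ t ∈ closure (Set.range fun g =>
      ((f g : (Matrix (Fin N) (Fin N) K)ˣ) : Matrix (Fin N) (Fin N) K).map σ),
        (t ^ l = 1 ∨ t ^ q = 1) → t = 1

theorem UG.mat (tei : TEI) (lat : LAT) (rub : RUB) (red : RED) (dsc : DSC) (fge : FGE) (rsc : RSC)
    {K : Type} [Field K] [CharZero K] {π : ℕ → ℕ} (hπ : ∀ l : ℕ, l.Prime → (π l).Prime) {e N : ℕ}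
    {G : Type} [Group G] (f : G →* (Matrix (Fin N) (Fin N) K)ˣ) (hf : Function.Injective f)
    (he : ∀ g, (minpoly K ((f g : (Matrix (Fin N) (Fin N) K)ˣ) :
      Matrix (Fin N) (Fin N) K)).natDegree ≤ e)
    (h : ∀ l : ℕ, l.Prime → Small K e l → ∀ [Fact (π l).Prime], Place K l (π l) f) :
    UG K π e G := by
  classical
  intro H hH
  have hHG : Group.FG H := (Group.fg_iff_subgroup_fg H).2 hH
  let Λ₀ : H →* Matrix (Fin N) (Fin N) K := (Units.coeHom _).comp (f.comp H.subtype)
  have hΛ₀ : Function.Injective Λ₀ := by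
    intro x y hxy
    exact Subtype.ext (hf (Units.ext hxy))
  obtain ⟨T, Λ', hΛ'⟩ := fge K N H hHG Λ₀
  have hΛ'i : Function.Injective Λ' := by
    intro x y hxy
    apply hΛ₀
    rw [← hΛ', ← hΛ', hxy]
  refine ⟨T, fun l hl => ⟨fun hs => ?_, fun hs => ?_⟩⟩
  · -- a good place
    have hF : Fact (π l).Prime := ⟨hπ l hl⟩
    obtain ⟨L, i1, i2, i3, σ, ⟨C, hC⟩, hcl⟩ := h l hl hs
    let ρ : Matrix (Fin N) (Fin N) K →+* Matrix (Fin N) (Fin N) L := RingHom.mapMatrix σ
    let Λ : G →* Matrix (Fin N) (Fin N) L := (ρ : _ →* _).comp ((Units.coeHom _).comp f)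
    have hΛi : Function.Injective Λ := by
      intro x y hxy
      exact hf (Units.ext (Matrix.map_injective σ.injective hxy))
    obtain ⟨M, Λ₁, C', h1, h2, h3⟩ := rsc (π l) N L G Λ C hΛi hC
    have h4 : Pool.Agent.H320.PG.D l (π l) G 1 := by
      refine caseA1 tei lat (π l) l M hl G Λ₁ h1 C' h2 ?_
      intro k hk
      refine h3 k ?_
      intro t ht htk
      refine hcl t ht ?_
      rcases hk with rfl | rfl
      · exact Or.inl htk
      · exact Or.inr htk
    exact h4.sub H.subtype H.subtype_injective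
  · refine ⟨max l (N + 1), fun p hp hpp => ?_⟩
    obtain ⟨i1, hcd, ι, hι⟩ := hpp
    have hlp : l < p := lt_of_le_of_lt (le_max_left _ _) hp
    have hpl : ¬ l ∣ p := fun h6 => by
      rcases (Nat.dvd_prime i1.out).1 h6 with h7 | h7
      · exact hl.one_lt.ne' h7
      · omega
    have hlF : Fact l.Prime := ⟨hl⟩
    have hp0 : (p : ZMod l) ≠ 0 := fun h6 => hpl ((ZMod.natCast_eq_zero_iff _ _).1 h6)
    have hspos : 0 < orderOf (p : ZMod l) := by
      rw [orderOf_pos_iff, isOfFinOrder_iff_pow_eq_one]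
      exact ⟨l - 1, by have := hl.two_le; omega, ZMod.pow_card_sub_one_eq_one hp0⟩
    have hlK : NeZero (l : AlgebraicClosure K) := by
      have : CharZero (AlgebraicClosure K) := charZero_of_injective_algebraMap
        (algebraMap K (AlgebraicClosure K)).injective
      exact ⟨by exact_mod_cast hl.ne_zero⟩
    obtain ⟨ζ, hζ⟩ := HasEnoughRootsOfUnity.exists_primitiveRoot (AlgebraicClosure K) l
    have h5 : ¬ (minpoly K ζ).natDegree ≤ e := fun h6 => hs ⟨ζ, hζ, h6⟩
    have hord : e < orderOf (p : ZMod l) := by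
      by_cases h2 : l = 2
      · subst h2
        have h6 : ζ = -1 := hζ.eq_neg_one_of_two_right
        have h7 : (minpoly K ζ).natDegree = 1 := by
          rw [h6, show (-1 : AlgebraicClosure K) = algebraMap K (AlgebraicClosure K) (-1) by simp,
            minpoly.eq_X_sub_C, natDegree_X_sub_C]
        omega
      · have h6 := hcd.1 h2 1 (by have := hl.two_le; exact (by omega : 1 ≤ max l (N + 1)))
          (orderOf (p : ZMod l)) hspos ?_ ζ (by rwa [pow_one])
        · omega
        · rw [pow_one]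
          have h7 : ((p : ZMod l)) ^ orderOf (p : ZMod l) = 1 := pow_orderOf_eq_one _
          have h8 : ((p ^ orderOf (p : ZMod l) - 1 : ℕ) : ZMod l) = 0 := by
            rw [Nat.cast_sub (Nat.one_le_pow _ _ i1.out.pos)]
            push_cast
            rw [h7, sub_self]
          exact (ZMod.natCast_eq_zero_iff _ _).1 h8
    refine caseBK rub red dsc K e N T p (lt_of_le_of_lt (le_max_right _ _) hp) l hl hlp.ne hord
      ι hι H Λ' hΛ'i (fun g => ⟨minpoly K (Λ₀ g), ?_, ?_, ?_⟩)
    · exact minpoly.ne_zero (Matrix.isIntegral _)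
    · exact he g
    · rw [hΛ']
      exact minpoly.aeval K _

end Pool.Agent.H320.DA
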