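import Pool.Agent.H320.DA.StmD

/-!
Task DEGP (helper740): elements of a central division algebra of prime degree `n` over `ℚ` have degree at most `n`.
-/

set_option autoImplicit false

open Polynomial

namespace Pool.Agent.H320.DA

namespace DEGPx

variable {D : Type} [DivisionRing D] [Algebra ℚ D]

/-- the homomorphism of `ℚ[X] / (minpoly x)` into `D` -/
noncomputable def phi (x : D) : AdjoinRoot (minpoly ℚ x) →+* D :=
  Ideal.Quotient.lift (Ideal.span {minpoly ℚ x}) (aeval x : ℚ[X] →ₐ[ℚ] D).toRingHom (by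
    intro a ha
    obtain ⟨c, rfl⟩ := Ideal.mem_span_singleton.1 ha
    show aeval x (minpoly ℚ x * c) = 0
    rw [map_mul, minpoly.aeval, zero_mul])

lemma phi_smul (x : D) (a : ℚ) (k : AdjoinRoot (minpoly ℚ x)) : phi x (a • k) = a • phi x k :=
  map_rat_smul (phi x) a k

/-- the linear version -/
noncomputable def phiL (x : D) : AdjoinRoot (minpoly ℚ x) →ₗ[ℚ] D where
  toFun := phi x
  map_add' := map_add (phi x)
  map_smul' := phi_smul x

lemma finrank_K [FiniteDimensional ℚ D] (x : D) :
    Module.finrank ℚ (AdjoinRoot (minpoly ℚ x)) = (minpoly ℚ x).natDegree := by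
  have hx : IsIntegral ℚ x := Algebra.IsIntegral.isIntegral x
  rw [(AdjoinRoot.powerBasis (minpoly.ne_zero hx)).finrank, AdjoinRoot.powerBasis_dim]

lemma dvd [FiniteDimensional ℚ D] (x : D) :
    (minpoly ℚ x).natDegree ∣ Module.finrank ℚ D := by
  have hx : IsIntegral ℚ x := Algebra.IsIntegral.isIntegral x
  have hirr : Irreducible (minpoly ℚ x) := minpoly.irreducible hx
  have : Fact (Irreducible (minpoly ℚ x)) := ⟨hirr⟩
  let _ : Module (AdjoinRoot (minpoly ℚ x)) D := Module.compHom D (phi x)
  have hsm : ∀ (k : AdjoinRoot (minpoly ℚ x)) (y : D), k • y = phi x k * y := fun _ _ => rfl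
  have : IsScalarTower ℚ (AdjoinRoot (minpoly ℚ x)) D := by
    constructor
    intro a k y
    rw [hsm, hsm, phi_smul, smul_mul_assoc]
  rw [← finrank_K x]
  exact ⟨_, (Module.finrank_mul_finrank ℚ (AdjoinRoot (minpoly ℚ x)) D).symm⟩

end DEGPx

open DEGPx in
theorem degp : DEGP := by
  intro n D _ _ _ hn hD x
  have hn2 : 2 ≤ n := hn.two_le
  have : FiniteDimensional ℚ D := Module.finite_of_finrank_pos (by rw [hD]; positivity)
  have h1 := dvd x
  rw [hD] at h1
  obtain ⟨i, hi, h2⟩ := (Nat.dvd_prime_pow hn).1 h1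
  rw [h2]
  rcases (by omega : i = 0 ∨ i = 1 ∨ i = 2) with rfl | rfl | rfl
  · rw [pow_zero]
    omega
  · rw [pow_one]
  · exfalso
    have hx : IsIntegral ℚ x := Algebra.IsIntegral.isIntegral x
    have : Fact (Irreducible (minpoly ℚ x)) := ⟨minpoly.irreducible hx⟩
    have : FiniteDimensional ℚ (AdjoinRoot (minpoly ℚ x)) :=
      (AdjoinRoot.powerBasis (minpoly.ne_zero hx)).finite
    have hinj : Function.Injective (phiL x) := (phi x).injective
    have hsurj : Function.Surjective (phiL x) :=
      (LinearMap.injective_iff_surjective_of_finrank_eq_finrank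
        (by rw [finrank_K, h2, hD])).1 hinj
    have hcomm : ∀ a b : D, a * b = b * a := by
      intro a b
      obtain ⟨u, hu⟩ := hsurj a
      obtain ⟨v, hv⟩ := hsurj b
      have hu' : phi x u = a := hu
      have hv' : phi x v = b := hv
      rw [← hu', ← hv', ← map_mul, ← map_mul, mul_comm]
    have h3 : (⊥ : Subalgebra ℚ D) = ⊤ := by
      rw [eq_top_iff]
      intro a _
      apply Algebra.IsCentral.out (K := ℚ) (D := D)
      rw [Subalgebra.mem_center_iff]
      intro b
      exact hcomm b a
    have h4 := Subalgebra.bot_eq_top_iff_finrank_eq_one.1 h3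
    rw [hD] at h4
    nlinarith

end Pool.Agent.H320.DA
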