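import Pool.Agent.H320.DA.StmK

/-!
DSC: linear dependence of the powers of a matrix descends to a subring (helper345).
-/

set_option autoImplicit false

open Polynomial

namespace Pool.Agent.H320.DA

open Classical in
theorem dsc : DSC := by
  intro K _ C e N M P hP hdeg hPM
  let _ : Algebra (FractionRing C) K := FractionRing.liftAlgebra C K
  have _ : IsScalarTower C (FractionRing C) K := FractionRing.isScalarTower_liftAlgebra C K
  obtain ⟨f, hf⟩ : ∃ f : K →ₗ[FractionRing C] FractionRing C, f P.leadingCoeff ≠ 0 := by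
    by_contra h
    have h1 : ∀ f : Module.Dual (FractionRing C) K, f P.leadingCoeff = 0 := fun f => by
      by_contra h2
      exact h ⟨f, h2⟩
    exact leadingCoeff_ne_zero.2 hP ((Module.forall_dual_apply_eq_zero_iff _ _).1 h1)
  obtain ⟨b, hb⟩ := IsLocalization.exist_integer_multiples_of_finset (nonZeroDivisors C)
    ((Finset.range (e + 1)).image (fun i => f (P.coeff i)))
  have hc : ∀ i, ∃ ci : C, i ≤ e →
      algebraMap C (FractionRing C) ci = (b : C) • f (P.coeff i) := by
    intro i
    by_cases hi : i ≤ e
    · obtain ⟨ci, h1⟩ := hb (f (P.coeff i))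
        (Finset.mem_image.2 ⟨i, Finset.mem_range.2 (Nat.lt_succ_of_le hi), rfl⟩)
      exact ⟨ci, fun _ => h1⟩
    · exact ⟨0, fun h => absurd h hi⟩
  choose c hc using hc
  have hinj : Function.Injective (algebraMap C (FractionRing C)) :=
    IsFractionRing.injective C (FractionRing C)
  have hcoef : ∀ j, j ≤ e → (∑ i ∈ Finset.range (e + 1), monomial i (c i)).coeff j = c j := by
    intro j hj
    simp only [finsetSum_coeff, coeff_monomial]
    rw [Finset.sum_ite_eq', if_pos (Finset.mem_range.2 (Nat.lt_succ_of_le hj))]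
  refine ⟨∑ i ∈ Finset.range (e + 1), monomial i (c i), ?_, ?_, ?_⟩
  · intro h0
    have h1 := hcoef P.natDegree hdeg
    rw [h0, coeff_zero] at h1
    have h2 := hc P.natDegree hdeg
    rw [← h1, map_zero] at h2
    have h3 : (b : C) ≠ 0 := nonZeroDivisors.coe_ne_zero b
    have h4 : algebraMap C (FractionRing C) b * f P.leadingCoeff = 0 := by
      rw [← Algebra.smul_def]
      exact h2.symm
    rcases mul_eq_zero.1 h4 with h5 | h5
    · exact h3 (hinj (by rw [h5, map_zero]))
    · exact hf h5
  · refine natDegree_sum_le_of_forall_le _ _ fun i hi => ?_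
    exact (natDegree_monomial_le _).trans (Nat.lt_succ_iff.1 (Finset.mem_range.1 hi))
  · have hP2 : ∀ a a' : Fin N, ∑ i ∈ Finset.range (e + 1),
        ((M ^ i) a a') • P.coeff i = 0 := by
      intro a a'
      rw [aeval_eq_sum_range' (Nat.lt_succ_of_le hdeg)] at hPM
      have h1 := congrFun (congrFun hPM a) a'
      rw [Matrix.sum_apply] at h1
      rw [Matrix.zero_apply] at h1
      rw [← h1]
      refine Finset.sum_congr rfl fun i _ => ?_
      rw [← map_pow, Matrix.smul_apply, RingHom.mapMatrix_apply, Matrix.map_apply, smul_eq_mul,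
        Algebra.smul_def, mul_comm]
      rfl
    ext1 a a'
    apply hinj
    rw [Matrix.zero_apply, map_zero, map_sum, Matrix.sum_apply, map_sum]
    have h2 : ∀ i ∈ Finset.range (e + 1),
        algebraMap C (FractionRing C) ((aeval M (monomial i (c i))) a a') =
          (b : C) • f (((M ^ i) a a') • P.coeff i) := by
      intro i hi
      have hi' : i ≤ e := Nat.lt_succ_iff.1 (Finset.mem_range.1 hi)
      rw [aeval_monomial, ← Algebra.smul_def, Matrix.smul_apply, smul_eq_mul, map_mul, hc i hi',
        LinearMap.map_smul_of_tower, smul_mul_assoc, Algebra.smul_def ((M ^ i) a a'), mul_comm]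
    rw [Finset.sum_congr rfl h2, ← Finset.smul_sum, ← map_sum, hP2, map_zero, smul_zero]

end Pool.Agent.H320.DA
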