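import Pool.Agent.H320.DA.Cls

/-!
helper320: division algebras over the rational numbers.
-/

set_option autoImplicit false

open scoped TensorProduct
open Polynomial

namespace Pool.Agent.H320.DA

open Pool.Agent.H371.SA Pool.Agent.H371.SB Pool.Agent.H320.TF
open Pool.Agent.H320.PG

theorem closD (rua : RUA) (sca : SCA) (lat : LAT) (bnd : BND) {q N : ℕ} [hq : Fact q.Prime]
    (hN : Odd N) (D : Type) [Ring D] [Algebra ℚ D] (b₀ : Module.Basis (Fin N) ℚ D)
    (hE : NoZeroDivisors (ℚ_[q] ⊗[ℚ] D)) (G : Type) [Group G] (f : G →* Dˣ)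
    (hdet : ∀ g, LinearMap.det (LinearMap.mulLeft ℚ ((f g : Dˣ) : D)) = 1) :
    (∃ C : ℝ, ∀ g i j, ‖algebraMap ℚ ℚ_[q]
      (LinearMap.toMatrix b₀ b₀ (LinearMap.mulLeft ℚ ((f g : Dˣ) : D)) i j)‖ ≤ C) ∧
    ∀ l : ℕ, l.Prime → Cnd q l N → ∀ T ∈ closure (Set.range fun g =>
      (LinearMap.toMatrix b₀ b₀ (LinearMap.mulLeft ℚ ((f g : Dˣ) : D))).map (algebraMap ℚ ℚ_[q])),
        T ^ l = 1 → T = 1 := by
  classical
  set b : Module.Basis (Fin N) ℚ_[q] (ℚ_[q] ⊗[ℚ] D) :=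
    Algebra.TensorProduct.basis ℚ_[q] b₀ with hb
  let x : G →* (ℚ_[q] ⊗[ℚ] D) :=
    ((Algebra.TensorProduct.includeRight : D →ₐ[ℚ] ℚ_[q] ⊗[ℚ] D) : D →* ℚ_[q] ⊗[ℚ] D).comp
      ((Units.coeHom D).comp f)
  have hx : ∀ g, x g = (1 : ℚ_[q]) ⊗ₜ[ℚ] ((f g : Dˣ) : D) := fun g => rfl
  have hml : ∀ g, LinearMap.mulLeft ℚ_[q] (x g) =
      (LinearMap.mulLeft ℚ ((f g : Dˣ) : D)).baseChange ℚ_[q] := by
    intro g
    refine LinearMap.ext fun v => ?_
    rw [hx]
    induction v with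
    | zero => simp
    | tmul c r => simp
    | add v w hv hw => rw [map_add, map_add, hv, hw]
  let Λ : G →* Matrix (Fin N) (Fin N) ℚ_[q] :=
    ((Algebra.leftMulMatrix b : _ →ₐ[ℚ_[q]] _) : _ →* _).comp x
  have hΛ0 : ∀ g, Λ g = LinearMap.toMatrix b b (LinearMap.mulLeft ℚ_[q] (x g)) := fun g => rfl
  have hΛ : ∀ g, Λ g = (LinearMap.toMatrix b₀ b₀ (LinearMap.mulLeft ℚ ((f g : Dˣ) : D))).map
      (algebraMap ℚ ℚ_[q]) := by
    intro g
    rw [hΛ0, hml, hb, LinearMap.toMatrix_baseChange]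
  have hΛd : ∀ g, (Λ g).det = 1 := by
    intro g
    rw [hΛ]
    have h1 := (algebraMap ℚ ℚ_[q]).map_det
      (LinearMap.toMatrix b₀ b₀ (LinearMap.mulLeft ℚ ((f g : Dˣ) : D)))
    rw [RingHom.mapMatrix_apply] at h1
    rw [← h1, LinearMap.det_toMatrix, hdet, map_one]
  obtain ⟨C, hC⟩ := bnd q N _ b
  have hC' : ∀ g i j, ‖Λ g i j‖ ≤ C := fun g => hC (x g) (by
    rw [← LinearMap.det_toMatrix b, ← hΛ0, hΛd, norm_one])
  refine ⟨⟨C, fun g i j => ?_⟩, ?_⟩
  · have h1 := hC' g i j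
    rw [hΛ] at h1
    exact h1
  obtain ⟨P, P', φ, h1, h2, h3, -⟩ := exists_conj lat Λ C hC'
  intro l hl hc T hT hTl
  have hfun : (fun g => (LinearMap.toMatrix b₀ b₀ (LinearMap.mulLeft ℚ ((f g : Dˣ) : D))).map
      (algebraMap ℚ ℚ_[q])) = fun g => Λ g := funext fun g => (hΛ g).symm
  rw [hfun] at hT
  -- the closed conditions
  let V : Submodule ℚ_[q] (Matrix (Fin N) (Fin N) ℚ_[q]) :=
    LinearMap.range (Algebra.leftMulMatrix b).toLinearMap
  have hV : IsClosed (V : Set (Matrix (Fin N) (Fin N) ℚ_[q])) :=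
    V.closed_of_finiteDimensional
  have h4 : T ∈ (V : Set (Matrix (Fin N) (Fin N) ℚ_[q])) ∧ T.det = 1 ∧
      ∀ i j, ‖(P * T * P') i j‖ ≤ 1 := by
    refine closure_minimal (t := {T : Matrix (Fin N) (Fin N) ℚ_[q] |
      T ∈ (V : Set (Matrix (Fin N) (Fin N) ℚ_[q])) ∧ T.det = 1 ∧
      ∀ i j, ‖(P * T * P') i j‖ ≤ 1}) ?_ ?_ hT
    · rintro _ ⟨g, rfl⟩
      exact ⟨⟨x g, rfl⟩, hΛd g, h3 g⟩
    · refine IsClosed.inter hV (IsClosed.inter
        (isClosed_eq continuous_id.matrix_det continuous_const) ?_)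
      have h5 : {T : Matrix (Fin N) (Fin N) ℚ_[q] | ∀ i j, ‖(P * T * P') i j‖ ≤ 1} =
          ⋂ i, ⋂ j, {T : Matrix (Fin N) (Fin N) ℚ_[q] | ‖(P * T * P') i j‖ ≤ 1} := by
        ext T
        simp
      change IsClosed {T : Matrix (Fin N) (Fin N) ℚ_[q] | ∀ i j, ‖(P * T * P') i j‖ ≤ 1}
      rw [h5]
      refine isClosed_iInter fun i => isClosed_iInter fun j => ?_
      have hcont : Continuous fun T : Matrix (Fin N) (Fin N) ℚ_[q] => P * T * P' :=
        (continuous_const.matrix_mul continuous_id).matrix_mul continuous_const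
      exact isClosed_le (continuous_norm.comp (hcont.matrix_elem i j)) continuous_const
  obtain ⟨⟨y, hy⟩, hdT, hnT⟩ := h4
  let t : Matrix (Fin N) (Fin N) ℤ_[q] := Matrix.of fun i j => ⟨(P * T * P') i j, hnT i j⟩
  have ht : mq q t = P * T * P' := by
    ext i j
    rfl
  have hTt : T = P' * mq q t * P := by
    rw [ht]
    calc T = (P' * P) * T * (P' * P) := by rw [h2, one_mul, mul_one]
      _ = _ := by simp only [mul_assoc]
  have hdt : t.det = 1 := by
    have h5 := mq_det t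
    rw [ht, Matrix.det_mul, Matrix.det_mul, hdT, mul_one, ← Matrix.det_mul, h1,
      Matrix.det_one] at h5
    exact Subtype.ext h5.symm
  have htl : t ^ l = 1 := by
    apply mq_inj (q := q)
    rw [mq_pow, mq_one, ht]
    have h5 : ∀ m : ℕ, (P * T * P') ^ m = P * T ^ m * P' := by
      intro m
      induction m with
      | zero => rw [pow_zero, pow_zero, mul_one, h1]
      | succ m ih =>
        rw [pow_succ, ih, pow_succ]
        calc P * T ^ m * P' * (P * T * P')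
            = P * T ^ m * (P' * P) * T * P' := by simp only [mul_assoc]
          _ = P * (T ^ m * T) * P' := by rw [h2, mul_one]; simp only [mul_assoc]
    rw [h5, hTl, mul_one, h1]
  have h6 : t = 1 := tq rua sca hl hN hc b h1 h2 hdt (y := y) (by
    have h7 : Algebra.leftMulMatrix b y = T := hy
    rw [← hTt, ← h7]
    rfl) htl
  rw [hTt, h6, mq_one, mul_one, h2]

/-- the degree of the roots of unity over the rational numbers -/
theorem small_rat {e l : ℕ} (hl : l.Prime) (h : Small ℚ e l) : l ≤ e + 1 := by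
  obtain ⟨ζ, hζ, h1⟩ := h
  have hcz : CharZero (AlgebraicClosure ℚ) := charZero_of_injective_algebraMap
    (algebraMap ℚ (AlgebraicClosure ℚ)).injective
  have h2 : ∀ i : Algebra ℚ (AlgebraicClosure ℚ),
      (@minpoly ℚ (AlgebraicClosure ℚ) _ _ i ζ).natDegree = l.totient := by
    intro i
    have h3 : i = DivisionRing.toRatAlgebra := Subsingleton.elim _ _
    subst h3
    rw [← cyclotomic_eq_minpoly_rat hζ hl.pos, natDegree_cyclotomic]
  rw [h2, Nat.totient_prime hl] at h1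
  omega

end Pool.Agent.H320.DA
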