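import Pool.Agent.H320.DA.Fin
import Pool.Graph.R_pool_sql_team_seeded_620a6dc7.Results.MP_95030e_al.AmenableOrderedQuotient
import Pool.Graph.R_seed8.TH714.PF.Fol

/-!
helper320: integrality of all kernel dimensions over the complex group ring passes to subgroups,
to directed unions and to extensions with amenable ordered quotients (the last one is a library
result, here translated).
-/

set_option autoImplicit false

namespace Pool.Agent.H320.DA

open Pool.Agent.H371.SA Pool.Agent.H371.SB
open Pool.Agent.H80R2.BC (L2 GMat vdim kerA Coef act)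
open Pool.Agent.W656.VA
open scoped Pointwise
open Pool.Agent.Results.MP_95030e_al.AmenableOrderedQuotient (Integral kernel Amenable
  Orderable)

/-- all kernel dimensions of matrices over `ℂ[G]` are integers -/
def AV (G : Type) [Group G] : Prop :=
  ∀ v : ℝ, Val (⊤ : Subring ℂ) G v → ∃ z : ℤ, v = z

theorem AV.of_inj {G H : Type} [Group G] [Group H] (f : H →* G) (hf : Function.Injective f)
    (hG : AV G) : AV H := by
  rintro v ⟨m, n, X, hX, rfl⟩
  rw [← vdim_push f hf X]
  exact hG _ (val_of _ fun _ _ _ => Subring.mem_top _)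

theorem AV.of_fg {G : Type} [Group G] (h : ∀ H : Subgroup G, H.FG → AV H) : AV G := by
  intro v hv
  obtain ⟨z, hz⟩ := Pool.Agent.H320.PG.val_of_fg (d := 1) (fun H hH v hv => by
    obtain ⟨z, hz⟩ := h H hH v hv
    exact ⟨z, by rw [← hz]; simp⟩) v hv
  exact ⟨z, by rw [← hz]; simp⟩

theorem kerDim_eq {G K L : Type} [Group G] [Fintype K] [Fintype L] (A : K → L → (G →₀ ℂ)) :
    vdim (kerA (fun (l : L) (k : K) => (A k l).equivMapDomain (Equiv.inv G) : GMat L K G)) =
      Pool.Agent.Results.MP_95030e_al.AmenableOrderedQuotient.kerDim A := by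
  classical
  have hS : (kernel A : Set (lp (fun _ : K × G => ℂ) 2)) =
      (kerA (fun (l : L) (k : K) => (A k l).equivMapDomain (Equiv.inv G) : GMat L K G) :
        Set (L2 (K × G))) := by
    ext x
    change _ ↔ ∀ i g, act _ x i g = 0
    refine forall_congr' fun i => forall_congr' fun g => ?_
    have : act (fun (l : L) (k : K) => (A k l).equivMapDomain (Equiv.inv G) : GMat L K G) x i g =
        ∑ k : K, ∑ h ∈ (A k i).support, x (k, g * h⁻¹) * A k i h := by
      unfold act
      refine Finset.sum_congr rfl fun j _ => ?_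
      change ((A j i).equivMapDomain (Equiv.inv G)).sum _ = _
      rw [Finsupp.sum_equivMapDomain, Finsupp.sum]
      refine Finset.sum_congr rfl fun h _ => ?_
      rw [mul_comm]
      rfl
    rw [this]
  unfold vdim Pool.Agent.Results.MP_95030e_al.AmenableOrderedQuotient.kerDim
  rw [hS]
  rfl

theorem AV.integral {G : Type} [Group G] (hG : AV G) : Integral ⊤ G := by
  intro K L _ _ A _
  obtain ⟨z, hz⟩ := hG _ (val_of (fun (l : L) (k : K) =>
    (A k l).equivMapDomain (Equiv.inv G) : GMat L K G) fun _ _ _ => Subring.mem_top _)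
  exact ⟨z, by rw [← kerDim_eq, hz]⟩

theorem AV.of_integral {G : Type} [Group G] (hG : Integral ⊤ G) : AV G := by
  rintro v ⟨m, n, X, hX, rfl⟩
  let A : Fin m → Fin n → (G →₀ ℂ) := fun k l => (X l k).equivMapDomain (Equiv.inv G)
  obtain ⟨z, hz⟩ := hG (Fin m) (Fin n) A fun _ _ _ => Subring.mem_top _
  refine ⟨z, ?_⟩
  rw [← hz, ← kerDim_eq]
  congr 2
  funext l k
  change X l k = ((X l k).equivMapDomain (Equiv.inv G)).equivMapDomain (Equiv.inv G)
  ext g
  simp [Finsupp.equivMapDomain_apply]

/-- extensions with amenable ordered quotients -/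
theorem AV.ext {G : Type} [Group G] (N : Subgroup G) [N.Normal] (o : LinearOrder (G ⧸ N))
    (ho : ∀ (g : G) (a b : G ⧸ N), a ≤ b → g • a ≤ g • b) (ham : Amenable (G ⧸ N))
    (hN : AV N) : AV G := by
  refine AV.of_integral (Pool.Agent.Results.MP_95030e_al.AmenableOrderedQuotient.result ⊤ G N ham ?_
    hN.integral)
  have hinj : Function.Injective (fun a : G ⧸ N => a⁻¹) := inv_injective
  refine ⟨LinearOrder.lift' (fun a : G ⧸ N => a⁻¹) hinj, ?_⟩
  intro a b c hab
  have hab' : a⁻¹ ≤ b⁻¹ := hab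
  change (a * c)⁻¹ ≤ (b * c)⁻¹
  rw [mul_inv_rev, mul_inv_rev]
  obtain ⟨g, hg⟩ := QuotientGroup.mk_surjective c
  have h1 := ho g⁻¹ a⁻¹ b⁻¹ hab'
  have h2 : ∀ x : G ⧸ N, g⁻¹ • x = c⁻¹ * x := by
    intro x
    obtain ⟨y, rfl⟩ := QuotientGroup.mk_surjective x
    rw [← hg]
    rfl
  rwa [h2, h2] at h1

theorem amenable_comm (Q : Type) [Group Q] (hc : ∀ a b : Q, a * b = b * a) : Amenable Q := by
  classical
  intro T ε hε
  obtain ⟨C, hC, h⟩ := Pool.Agent.TH714.PF.Fol.ex (Pool.Agent.TH714.PF.fol_comm' Q hc) T ε hε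
  refine ⟨C, hC, le_trans ?_ h⟩
  have h2 : ((T ×ˢ C).image (fun p => p.1 * p.2)) ⊆ C * T := by
    intro x hx
    rw [Finset.mem_image] at hx
    obtain ⟨p, hp, rfl⟩ := hx
    rw [Finset.mem_product] at hp
    rw [Finset.mem_mul]
    exact ⟨p.2, hp.2, p.1, hp.1, hc _ _⟩
  exact_mod_cast Finset.card_le_card (by convert h2)

theorem amenable_quot {G A : Type} [Group G] [CommGroup A] (f : G →* A) :
    Amenable (G ⧸ f.ker) := by
  apply amenable_comm
  intro a b
  apply QuotientGroup.kerLift_injective f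
  rw [map_mul, map_mul, mul_comm]

end Pool.Agent.H320.DA
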