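import Pool.Agent.H320.DA.StmK

/-!
helper320, task FGE: the entries of a finitely generated matrix group lie in a finitely generated
ring.
-/

set_option autoImplicit false

namespace Pool.Agent.H320.DA

theorem fge : FGE := by
  intro K _ N G _ hG Λ
  obtain ⟨S, hS, hSfin⟩ := Group.fg_iff.1 hG
  have hfin : (⋃ s ∈ S, ⋃ i : Fin N, ⋃ j : Fin N, ({Λ s i j, Λ s⁻¹ i j} : Set K)).Finite :=
    hSfin.biUnion fun s _ => Set.finite_iUnion fun i => Set.finite_iUnion fun j => Set.toFinite _
  set T : Finset K := hfin.toFinset with hT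
  set R : Subring K := Subring.closure (T : Set K) with hR
  have hTR : ∀ x ∈ T, x ∈ R := fun x hx => Subring.subset_closure hx
  have hmul : ∀ A B : Matrix (Fin N) (Fin N) K, (∀ i j, A i j ∈ R) → (∀ i j, B i j ∈ R) →
      ∀ i j, (A * B) i j ∈ R := by
    intro A B hA hB i j
    rw [Matrix.mul_apply]
    exact R.sum_mem fun k _ => R.mul_mem (hA i k) (hB k j)
  have hone : ∀ i j, (1 : Matrix (Fin N) (Fin N) K) i j ∈ R := by
    intro i j
    rw [Matrix.one_apply]
    split_ifs
    · exact R.one_mem
    · exact R.zero_mem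
  have H : ∀ g : G, (∀ i j, Λ g i j ∈ R) ∧ (∀ i j, Λ g⁻¹ i j ∈ R) := by
    intro g
    have hg : g ∈ Subgroup.closure S := by
      rw [hS]
      exact Subgroup.mem_top g
    induction hg using Subgroup.closure_induction with
    | mem s hs =>
      refine ⟨fun i j => hTR _ ?_, fun i j => hTR _ ?_⟩
      · rw [hT, Set.Finite.mem_toFinset]
        simp only [Set.mem_iUnion]
        exact ⟨s, hs, i, j, Or.inl rfl⟩
      · rw [hT, Set.Finite.mem_toFinset]
        simp only [Set.mem_iUnion]
        exact ⟨s, hs, i, j, Or.inr rfl⟩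
    | one =>
      rw [inv_one, map_one]
      exact ⟨hone, hone⟩
    | mul x y _ _ hx hy =>
      rw [mul_inv_rev, map_mul, map_mul]
      exact ⟨hmul _ _ hx.1 hy.1, hmul _ _ hy.2 hx.2⟩
    | inv x _ hx =>
      rw [inv_inv]
      exact ⟨hx.2, hx.1⟩
  have hinj : Function.Injective (R.subtype.mapMatrix : Matrix (Fin N) (Fin N) R →+* _) := by
    intro A B hAB
    ext i j
    exact congrFun (congrFun hAB i) j
  have hval : ∀ g : G, R.subtype.mapMatrix
      (Matrix.of fun i j => (⟨Λ g i j, (H g).1 i j⟩ : R)) = Λ g := by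
    intro g
    ext i j
    rfl
  refine ⟨T, { toFun := fun g => Matrix.of fun i j => (⟨Λ g i j, (H g).1 i j⟩ : R)
               map_one' := hinj ?_
               map_mul' := fun x y => hinj ?_ }, hval⟩
  · rw [hval, map_one, map_one]
  · rw [hval, map_mul, map_mul, hval, hval]

end Pool.Agent.H320.DA
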