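import Mathlib

/-!
helper320: statements on degrees of elements of division algebras.
-/

set_option autoImplicit false

open Polynomial

namespace Pool.Agent.H320.DA

/-- DEGP -/
def DEGP : Prop := ∀ (n : ℕ) (D : Type) [DivisionRing D] [Algebra ℚ D] [Algebra.IsCentral ℚ D],
  n.Prime → Module.finrank ℚ D = n ^ 2 → ∀ x : D, (minpoly ℚ x).natDegree ≤ n

/-- DEGN -/
def DEGN : Prop := ∀ (n : ℕ) (D : Type) [DivisionRing D] [Algebra ℚ D] [Algebra.IsCentral ℚ D],
  0 < n → Module.finrank ℚ D = n ^ 2 → ∀ x : D, (minpoly ℚ x).natDegree ≤ n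

end Pool.Agent.H320.DA
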