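import Pool.Agent.H320.DA.DivD
import Pool.Agent.H320.DA.StmD

/-!
helper320: the group of the elements of norm one of a division algebra over the rational numbers.
-/

set_option autoImplicit false

open scoped TensorProduct
open Polynomial

namespace Pool.Agent.H320.DA

open Pool.Agent.H320.PG

section
variable (D : Type) [DivisionRing D] [Algebra ℚ D]

/-- the determinant of the left multiplication -/
noncomputable def nrm : Dˣ →* ℚˣ :=
  Units.map ((LinearMap.det : (D →ₗ[ℚ] D) →* ℚ).comp ((Algebra.lmul ℚ D : D →ₐ[ℚ] _) : D →* _))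

theorem nrm_apply (x : Dˣ) : ((nrm D x : ℚˣ) : ℚ) =
    LinearMap.det (LinearMap.mulLeft ℚ (x : D)) := rfl

/-- the elements of positive norm -/
def Pos : Subgroup Dˣ where
  carrier := {x | 0 < LinearMap.det (LinearMap.mulLeft ℚ (x : D))}
  one_mem' := by
    change 0 < ((nrm D 1 : ℚˣ) : ℚ)
    rw [map_one]
    exact one_pos
  mul_mem' := by
    intro x y hx hy
    change 0 < ((nrm D (x * y) : ℚˣ) : ℚ)
    rw [map_mul, Units.val_mul]
    exact mul_pos hx hy
  inv_mem' := by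
    intro x hx
    change 0 < ((nrm D x⁻¹ : ℚˣ) : ℚ)
    rw [map_inv, Units.val_inv_eq_inv_val]
    exact inv_pos.2 hx

/-- the norm on the elements of positive norm -/
noncomputable def nPos : Pos D →* ℚˣ := (nrm D).comp (Pos D).subtype

theorem nPos_pos (x : Pos D) : 0 < ((nPos D x : ℚˣ) : ℚ) := x.2

/-- the order on the cosets -/
noncomputable def ordC : LinearOrder (Pos D ⧸ (nPos D).ker) :=
  LinearOrder.lift' (fun x => ((QuotientGroup.kerLift (nPos D) x : ℚˣ) : ℚ))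
    (Units.val_injective.comp (QuotientGroup.kerLift_injective (nPos D)))

theorem ordC_smul (g : Pos D) (a b : Pos D ⧸ (nPos D).ker)
    (h : (ordC D).le a b) : (ordC D).le (g • a) (g • b) := by
  obtain ⟨a, rfl⟩ := QuotientGroup.mk_surjective a
  obtain ⟨b, rfl⟩ := QuotientGroup.mk_surjective b
  have h1 : ((nPos D a : ℚˣ) : ℚ) ≤ ((nPos D b : ℚˣ) : ℚ) := h
  change ((nPos D (g * a) : ℚˣ) : ℚ) ≤ ((nPos D (g * b) : ℚˣ) : ℚ)
  rw [map_mul, map_mul, Units.val_mul, Units.val_mul]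
  exact mul_le_mul_of_nonneg_left h1 (nPos_pos D g).le

end

/-- the kernel of the norm satisfies the hypotheses of the class -/
theorem exists_rep (rua : RUA) (sca : SCA) (lat : LAT) (bnd : BND) (D : Type) [DivisionRing D]
    [Algebra ℚ D] [FiniteDimensional ℚ D] (e : ℕ) (hN : Odd (Module.finrank ℚ D))
    (he : ∀ x : D, (minpoly ℚ x).natDegree ≤ e)
    (h : ∀ l : ℕ, l.Prime → l ≤ e + 1 → ∃ (q : ℕ) (_ : Fact q.Prime),
      NoZeroDivisors (ℚ_[q] ⊗[ℚ] D) ∧ Cnd q l (Module.finrank ℚ D)) :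
    ∃ π : ℕ → ℕ, (∀ l : ℕ, l.Prime → (π l).Prime) ∧
      ∃ (f : (nPos D).ker →* (Matrix (Fin (Module.finrank ℚ D)) (Fin (Module.finrank ℚ D)) ℚ)ˣ),
        Function.Injective f ∧
        (∀ g, (minpoly ℚ ((f g : (Matrix (Fin (Module.finrank ℚ D))
          (Fin (Module.finrank ℚ D)) ℚ)ˣ) : Matrix (Fin (Module.finrank ℚ D))
          (Fin (Module.finrank ℚ D)) ℚ)).natDegree ≤ e) ∧
        ∀ l : ℕ, l.Prime → Small ℚ e l → ∀ [Fact (π l).Prime], Place ℚ l (π l) f := by
  classical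
  have h1 : ∀ l : ℕ, ∃ q : ℕ, q.Prime ∧ (l.Prime → l ≤ e + 1 → ∀ [Fact q.Prime],
      NoZeroDivisors (ℚ_[q] ⊗[ℚ] D) ∧ Cnd q l (Module.finrank ℚ D)) := by
    intro l
    by_cases hl : l.Prime ∧ l ≤ e + 1
    · obtain ⟨q, hq, h2⟩ := h l hl.1 hl.2
      exact ⟨q, hq.out, fun _ _ => h2⟩
    · exact ⟨2, Nat.prime_two, fun h2 h3 => absurd ⟨h2, h3⟩ hl⟩
  choose π hπ1 hπ2 using h1
  refine ⟨π, fun l _ => hπ1 l, ?_⟩
  set b := Module.finBasis ℚ D with hb
  let f : (nPos D).ker →* (Matrix (Fin (Module.finrank ℚ D)) (Fin (Module.finrank ℚ D)) ℚ)ˣ :=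
    (Units.map ((Algebra.leftMulMatrix b : D →ₐ[ℚ] _) : D →* _)).comp
      ((Pos D).subtype.comp (nPos D).ker.subtype)
  let f₀ : (nPos D).ker →* Dˣ := (Pos D).subtype.comp (nPos D).ker.subtype
  have hf₀ : Function.Injective f₀ := by
    intro x y hxy
    exact Subtype.ext (Subtype.ext hxy)
  have hf : ∀ g, ((f g : (Matrix (Fin (Module.finrank ℚ D)) (Fin (Module.finrank ℚ D)) ℚ)ˣ) :
      Matrix (Fin (Module.finrank ℚ D)) (Fin (Module.finrank ℚ D)) ℚ) =
        Algebra.leftMulMatrix b ((f₀ g : Dˣ) : D) := fun g => rfl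
  have hdet : ∀ g, LinearMap.det (LinearMap.mulLeft ℚ ((f₀ g : Dˣ) : D)) = 1 := by
    intro g
    have h2 : nPos D (g : Pos D) = 1 := g.2
    exact congrArg Units.val h2
  refine ⟨f, ?_, ?_, ?_⟩
  · intro x y hxy
    apply hf₀
    apply Units.ext
    apply Algebra.leftMulMatrix_injective b
    rw [← hf, ← hf, hxy]
  · intro g
    rw [hf, minpoly.algHom_eq _ (Algebra.leftMulMatrix_injective b)]
    exact he _
  · intro l hl hs hF
    obtain ⟨h3, h4⟩ := hπ2 l hl (small_rat hl hs)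
    obtain ⟨⟨C, hC⟩, h5⟩ := closD rua sca lat bnd (q := π l) hN D b h3 _ f₀ hdet
    refine ⟨ℚ_[π l], inferInstance, inferInstance, inferInstance, algebraMap ℚ ℚ_[π l],
      ⟨C, fun g i j => hC g i j⟩, ?_⟩
    intro t ht htl
    rcases htl with h6 | h6
    · exact h5 l hl h4 t ht h6
    · exact h5 (π l) (hπ1 l) (Or.inl rfl) t ht h6

/-- prime degree -/
theorem prime_deg (degp : DEGP) {n q : ℕ} [hq : Fact q.Prime] (hn : n.Prime) (hn2 : n ≠ 2)
    (D : Type) [DivisionRing D] [Algebra ℚ D] [Algebra.IsCentral ℚ D]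
    (hdim : Module.finrank ℚ D = n ^ 2) (hE : NoZeroDivisors (ℚ_[q] ⊗[ℚ] D))
    (hqn : ¬ n ∣ q - 1) :
    FiniteDimensional ℚ D ∧ Odd (Module.finrank ℚ D) ∧
    (∀ x : D, (minpoly ℚ x).natDegree ≤ n) ∧
    ∀ l : ℕ, l.Prime → l ≤ n + 1 → ∃ (q : ℕ) (_ : Fact q.Prime),
      NoZeroDivisors (ℚ_[q] ⊗[ℚ] D) ∧ Cnd q l (Module.finrank ℚ D) := by
  have hodd : Odd n := hn.odd_of_ne_two hn2
  refine ⟨Module.finite_of_finrank_pos (by rw [hdim]; have := hn.pos; positivity), ?_,
    degp n D hn hdim, ?_⟩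
  · rw [hdim]; exact hodd.pow
  · intro l hl hln
    refine ⟨q, hq, hE, ?_⟩
    rw [hdim]
    by_cases hql : q = l
    · exact Or.inl hql
    right
    have hn3 : 3 ≤ n := by have := hn.two_le; omega
    have hln' : l ≤ n := by
      rcases Nat.lt_or_ge l (n + 1) with h | h
      · omega
      · have h1 : l = n + 1 := le_antisymm hln h
        have h2 : Even l := by rw [h1]; exact hodd.add_one
        have h3 : l = 2 := (hl.even_iff).1 h2
        omega
    have hlF : Fact l.Prime := ⟨hl⟩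
    have hq0 : (q : ZMod l) ≠ 0 := fun h => by
      have h1 := (ZMod.natCast_eq_zero_iff _ _).1 h
      rcases (Nat.dvd_prime hq.out).1 h1 with h2 | h2
      · exact hl.one_lt.ne' h2
      · exact hql h2.symm
    have hdvd : orderOf (q : ZMod l) ∣ l - 1 :=
      orderOf_dvd_of_pow_eq_one (ZMod.pow_card_sub_one_eq_one hq0)
    have hle : orderOf (q : ZMod l) < n := by
      have h1 := Nat.le_of_dvd (by have := hl.two_le; omega) hdvd
      have := hl.two_le
      omega
    by_cases h1 : orderOf (q : ZMod l) ∣ n ^ 2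
    · right
      obtain ⟨k, hk, hk'⟩ := (Nat.dvd_prime_pow hn).1 h1
      have hk0 : k = 0 := by
        rcases Nat.eq_zero_or_pos k with h2 | h2
        · exact h2
        · exfalso
          have h3 : n ≤ n ^ k := Nat.le_self_pow h2.ne' n
          omega
      have h2 : orderOf (q : ZMod l) = 1 := by rw [hk', hk0, pow_zero]
      refine ⟨h2, fun h3 => ?_⟩
      have h4 : l ∣ n := hl.dvd_of_dvd_pow h3
      have h5 : l = n := (Nat.prime_dvd_prime_iff_eq hl hn).1 h4
      apply hqn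
      rw [← h5]
      have h6 : (q : ZMod l) = 1 := orderOf_eq_one_iff.1 h2
      have h7 : ((q - 1 : ℕ) : ZMod l) = 0 := by
        rw [Nat.cast_sub hq.out.one_lt.le, h6, Nat.cast_one, sub_self]
      exact (ZMod.natCast_eq_zero_iff _ _).1 h7
    · exact Or.inl h1

end Pool.Agent.H320.DA
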