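import Mathlib

/-!
helper320: statements of lemmas on linear groups over fields of characteristic zero and local fields.
-/

set_option autoImplicit false

open Polynomial

namespace Pool.Agent.H320.DA

/-- DSC -/
def DSC : Prop := ∀ (K : Type) [Field K] (C : Subring K) (e N : ℕ) (M : Matrix (Fin N) (Fin N) C)
  (P : K[X]), P ≠ 0 → P.natDegree ≤ e → aeval (C.subtype.mapMatrix M) P = 0 →
    ∃ Q : C[X], Q ≠ 0 ∧ Q.natDegree ≤ e ∧ aeval M Q = 0

/-- FGE -/
def FGE : Prop := ∀ (K : Type) [Field K] (N : ℕ) (G : Type) [Group G], Group.FG G →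
  ∀ Λ : G →* Matrix (Fin N) (Fin N) K, ∃ (T : Finset K)
    (Λ' : G →* Matrix (Fin N) (Fin N) (Subring.closure (T : Set K))),
      ∀ g, (Subring.closure (T : Set K)).subtype.mapMatrix (Λ' g) = Λ g

/-- RSC -/
def RSC : Prop := ∀ (q N : ℕ) [Fact q.Prime] (L : Type) [NontriviallyNormedField L]
  [NormedAlgebra ℚ_[q] L] [FiniteDimensional ℚ_[q] L] (G : Type) [Group G]
  (Λ : G →* Matrix (Fin N) (Fin N) L) (C : ℝ), Function.Injective Λ →
  (∀ g i j, ‖Λ g i j‖ ≤ C) →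
    ∃ (M : ℕ) (Λ' : G →* Matrix (Fin M) (Fin M) ℚ_[q]) (C' : ℝ), Function.Injective Λ' ∧
      (∀ g i j, ‖Λ' g i j‖ ≤ C') ∧
      ∀ k : ℕ, (∀ T ∈ closure (Set.range Λ), T ^ k = 1 → T = 1) →
        ∀ T ∈ closure (Set.range Λ'), T ^ k = 1 → T = 1

end Pool.Agent.H320.DA
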