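import Pool.Agent.H320.DA.Base
import Pool.Agent.H320.DA.StmK
import Pool.Agent.H320.CF.Asm

/-!
helper320: linear groups with one good place for each small prime.
-/

set_option autoImplicit false

open scoped TensorProduct
open Polynomial

namespace Pool.Agent.H320.DA

open Pool.Agent.H371.SA Pool.Agent.H371.SB Pool.Agent.H320.TF
open Pool.Agent.H320.PG

/-- limits are in the closure -/
theorem lm_closure {q N : ℕ} [Fact q.Prime] {G : Type} [Group G]
    (φ : G →* (Matrix (Fin N) (Fin N) ℤ_[q])ˣ) (P P' : Matrix (Fin N) (Fin N) ℚ_[q])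
    (Λ : G → Matrix (Fin N) (Fin N) ℚ_[q])
    (hΛ : ∀ g, Λ g = P' * mq q ((φ g : (Matrix (Fin N) (Fin N) ℤ_[q])ˣ) :
      Matrix (Fin N) (Fin N) ℤ_[q]) * P) {t : Matrix (Fin N) (Fin N) ℤ_[q]} (ht : Lm q φ t) :
    P' * mq q t * P ∈ closure (Set.range Λ) := by
  choose g a hga using ht
  refine mem_closure_of_tendsto (b := Filter.atTop) (f := fun j => Λ (g j)) ?_
    (Filter.Eventually.of_forall fun j => ⟨g j, rfl⟩)
  have h1 : Filter.Tendsto (fun j => mq q ((φ (g j) : (Matrix (Fin N) (Fin N) ℤ_[q])ˣ) :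
      Matrix (Fin N) (Fin N) ℤ_[q])) Filter.atTop (nhds (mq q t)) := by
    refine tendsto_pi_nhds.2 fun i => tendsto_pi_nhds.2 fun i' => ?_
    rw [tendsto_iff_norm_sub_tendsto_zero]
    have hp1 : (1 : ℝ) < q := by exact_mod_cast (Fact.out : q.Prime).one_lt
    refine squeeze_zero (fun j => norm_nonneg _) (fun j => ?_)
      (tendsto_pow_atTop_nhds_zero_of_lt_one (r := ((q : ℝ)⁻¹)) (by positivity)
        (inv_lt_one_of_one_lt₀ hp1))
    have h1 := congrFun (congrFun (hga j) i) i'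
    rw [Matrix.add_apply] at h1
    have h3 : ((q : Matrix (Fin N) (Fin N) ℤ_[q]) ^ j * a j) i i' = (q : ℤ_[q]) ^ j * a j i i' := by
      rw [← Nat.cast_pow, ← nsmul_eq_mul, Matrix.smul_apply, nsmul_eq_mul, Nat.cast_pow]
    rw [h3] at h1
    have h4 : mq q ((φ (g j) : (Matrix (Fin N) (Fin N) ℤ_[q])ˣ) :
        Matrix (Fin N) (Fin N) ℤ_[q]) i i' - mq q t i i' =
          (((q : ℤ_[q]) ^ j * a j i i' : ℤ_[q]) : ℚ_[q]) := by
      have e1 : mq q ((φ (g j) : (Matrix (Fin N) (Fin N) ℤ_[q])ˣ) :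
        Matrix (Fin N) (Fin N) ℤ_[q]) i i' = (((φ (g j) : (Matrix (Fin N) (Fin N) ℤ_[q])ˣ) :
        Matrix (Fin N) (Fin N) ℤ_[q]) i i' : ℚ_[q]) := rfl
      have e2 : mq q t i i' = (t i i' : ℚ_[q]) := rfl
      rw [e1, e2, h1]
      push_cast
      ring
    rw [h4, PadicInt.padic_norm_e_of_padicInt, norm_mul, PadicInt.norm_p_pow, zpow_neg,
      zpow_natCast, inv_pow]
    exact mul_le_of_le_one_right (by positivity) (PadicInt.norm_le_one _)
  have h2 : Filter.Tendsto (fun j => P' * mq q ((φ (g j) : (Matrix (Fin N) (Fin N) ℤ_[q])ˣ) :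
      Matrix (Fin N) (Fin N) ℤ_[q]) * P) Filter.atTop (nhds (P' * mq q t * P)) := by
    have hc : Continuous fun X : Matrix (Fin N) (Fin N) ℚ_[q] => P' * X * P :=
      (continuous_const.matrix_mul continuous_id).matrix_mul continuous_const
    exact (hc.tendsto (mq q t)).comp h1
  refine h2.congr fun j => (hΛ (g j)).symm

/-- an integral conjugate -/
theorem exists_conj (lat : LAT) {q N : ℕ} [hq : Fact q.Prime] {G : Type} [Group G]
    (Λ : G →* Matrix (Fin N) (Fin N) ℚ_[q]) (C : ℝ) (hC : ∀ g i j, ‖Λ g i j‖ ≤ C) :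
    ∃ (P P' : Matrix (Fin N) (Fin N) ℚ_[q]) (φ : G →* (Matrix (Fin N) (Fin N) ℤ_[q])ˣ),
      P * P' = 1 ∧ P' * P = 1 ∧ (∀ g i j, ‖(P * Λ g * P') i j‖ ≤ 1) ∧
      (∀ g, Λ g = P' * mq q ((φ g : (Matrix (Fin N) (Fin N) ℤ_[q])ˣ) :
        Matrix (Fin N) (Fin N) ℤ_[q]) * P) := by
  obtain ⟨P, P', h1, h2, h3⟩ := lat q N G Λ C hC
  let Λ' : G →* Matrix (Fin N) (Fin N) ℚ_[q] :=
    { toFun := fun g => P * Λ g * P'
      map_one' := by rw [map_one, mul_one, h1]
      map_mul' := fun g h => by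
        rw [map_mul]
        calc P * (Λ g * Λ h) * P' = P * Λ g * 1 * Λ h * P' := by
              rw [mul_one]; simp only [mul_assoc]
          _ = P * Λ g * P' * (P * Λ h * P') := by rw [← h2]; simp only [mul_assoc] }
  have hΛ' : ∀ g, Λ' g = P * Λ g * P' := fun g => rfl
  obtain ⟨φ, hφ⟩ := exists_phi q N Λ' h3
  refine ⟨P, P', φ, h1, h2, h3, fun g => ?_⟩
  rw [hφ, hΛ']
  calc Λ g = (P' * P) * Λ g * (P' * P) := by rw [h2, one_mul, mul_one]
    _ = _ := by simp only [mul_assoc]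

/-- case A: a good place -/
theorem caseA1 (tei : TEI) (lat : LAT) (q l N : ℕ) [hq : Fact q.Prime] (hl : l.Prime)
    (G : Type) [Group G] (Λ : G →* Matrix (Fin N) (Fin N) ℚ_[q]) (hΛi : Function.Injective Λ)
    (C : ℝ) (hC : ∀ g i j, ‖Λ g i j‖ ≤ C)
    (hcl : ∀ k, (k = l ∨ k = q) → ∀ T ∈ closure (Set.range Λ), T ^ k = 1 → T = 1) :
    Pool.Agent.H320.PG.D l q G 1 := by
  classical
  obtain ⟨P, P', φ, h1, h2, h3, hΛφ⟩ := exists_conj lat Λ C hC
  have hφi : Function.Injective φ := by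
    intro g h hgh
    apply hΛi
    rw [hΛφ, hΛφ, hgh]
  have key : ∀ k, (k = l ∨ k = q) → ∀ t, Lm q φ t → t ^ k = 1 → t = 1 := by
    intro k hk t ht htk
    have h4 := lm_closure φ P P' Λ hΛφ ht
    have h5 : ∀ m : ℕ, (P' * mq q t * P) ^ m = P' * mq q (t ^ m) * P := by
      intro m
      induction m with
      | zero => rw [pow_zero, pow_zero, mq_one, mul_one, h2]
      | succ m ih =>
        rw [pow_succ, ih, pow_succ, mq_mul]
        calc P' * mq q (t ^ m) * P * (P' * mq q t * P)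
            = P' * mq q (t ^ m) * (P * P') * mq q t * P := by simp only [mul_assoc]
          _ = P' * (mq q (t ^ m) * mq q t) * P := by rw [h1, mul_one]; simp only [mul_assoc]
    have h6 := hcl k hk _ h4 (by rw [h5, htk, mq_one, mul_one, h2])
    apply mq_inj (q := q)
    rw [mq_one]
    calc mq q t = P * P' * mq q t * (P * P') := by rw [h1, one_mul, mul_one]
      _ = P * (P' * mq q t * P) * P' := by simp only [mul_assoc]
      _ = 1 := by rw [h6, mul_one, h1]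
  have hnoT : NoT q φ := fun t ht htq => key q (Or.inr rfl) t ht htq
  obtain ⟨r, hr0, hquo, hr⟩ := quo_im q N φ
  obtain ⟨b', r', hr', hcard⟩ := Nat.exists_eq_pow_mul_and_not_dvd hr0 q hq.out.ne_one
  have hquo' : Quo q r' φ := by
    obtain ⟨F, i1, i2, π, b'', hF, h⟩ := hquo
    refine ⟨F, i1, i2, π, b' + b'', ?_, h⟩
    have e1 : r * q ^ b'' = r' * q ^ (b' + b'') := by rw [hcard]; ring
    rwa [e1] at hF
  refine ⟨hq, 1, r', GS.of_noT φ hnoT (sep_self q N φ hφi) hquo', r', ?_, dvd_rfl⟩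
  intro hlr
  by_cases hlq : l = q
  · exact hr' (hlq ▸ hlr)
  · obtain ⟨g, hg1, hg2⟩ := hr l hl (hcard ▸ hlr.mul_left _)
    obtain ⟨t, ht, htl, ht1⟩ := tei q l N hl hlq G φ g hg1 hg2
    exact ht1 (key l (Or.inl rfl) t ht htl)

/-- case B over a field `K` -/
theorem caseBK (rub : RUB) (red : RED) (dsc : DSC) (K : Type) [Field K] (e N : ℕ) (T : Finset K)
    (p : ℕ) [hp' : Fact p.Prime] (hpN : N + 1 < p) (l : ℕ) (hl : l.Prime)
    (hlp : l ≠ p) (hord : e < orderOf (p : ZMod l))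
    (ι : Subring.closure (T : Set K) →+* ℤ_[p]) (hι : Function.Injective ι)
    (G : Type) [Group G] (Λ : G →* Matrix (Fin N) (Fin N) (Subring.closure (T : Set K)))
    (hΛi : Function.Injective Λ)
    (hdeg : ∀ g, ∃ P : K[X], P ≠ 0 ∧ P.natDegree ≤ e ∧
      aeval ((Subring.closure (T : Set K)).subtype.mapMatrix (Λ g)) P = 0) :
    Pool.Agent.H320.PG.D l p G 1 := by
  classical
  let κ : Subring.closure (T : Set K) →+* ℚ_[p] := (PadicInt.Coe.ringHom (p := p)).comp ι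
  have hκ : Function.Injective κ := by
    intro x y hxy
    apply hι
    exact Subtype.ext hxy
  let ρ : Matrix (Fin N) (Fin N) (Subring.closure (T : Set K)) →+* Matrix (Fin N) (Fin N) ℤ_[p] :=
    RingHom.mapMatrix ι
  let φ : G →* (Matrix (Fin N) (Fin N) ℤ_[p])ˣ := ((ρ : _ →* _).comp Λ).toHomUnits
  have hφ : ∀ g, ((φ g : (Matrix (Fin N) (Fin N) ℤ_[p])ˣ) : Matrix (Fin N) (Fin N) ℤ_[p]) =
      (Λ g).map ι := fun g => rfl
  have hφi : Function.Injective φ := by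
    intro g h hgh
    apply hΛi
    have h1 : (Λ g).map ι = (Λ h).map ι := by rw [← hφ, ← hφ, hgh]
    exact Matrix.map_injective hι h1
  obtain ⟨r, hr0, hquo, hr⟩ := quo_im p N φ
  have hcc : cc p N = 1 := cc_one_of_lt hpN
  have hGS := GS.of_cc φ (sep_self p N φ hφi) hquo
  rw [hcc] at hGS
  refine ⟨hp', 1, r, hGS, r, ?_, dvd_rfl⟩
  intro hlr
  obtain ⟨g, hg1, hg2⟩ := hr l hl hlr
  apply hg2
  obtain ⟨P, hP0, hPd, hP⟩ := hdeg g
  obtain ⟨P₁, hP₁0, hP₁d, hP₁⟩ := dsc K _ e N (Λ g) P hP0 hPd hP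
  obtain ⟨Q, hQ0, hQd, hQ⟩ := red p e N ((φ g : (Matrix (Fin N) (Fin N) ℤ_[p])ˣ) :
    Matrix (Fin N) (Fin N) ℤ_[p]) (P₁.map κ)
    ((Polynomial.map_ne_zero_iff hκ).2 hP₁0)
    ((Polynomial.natDegree_map_le).trans hP₁d) (by
      have h3 := congrArg (RingHom.mapMatrix κ : Matrix (Fin N) (Fin N) _ →+* _) hP₁
      rw [map_zero] at h3
      rw [← h3, aeval_def, eval₂_map, aeval_def, hom_eval₂]
      congr 1
      refine RingHom.ext fun c => ?_
      ext i j
      simp only [RingHom.comp_apply, Matrix.algebraMap_matrix_apply, RingHom.mapMatrix_apply,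
        Matrix.map_apply]
      split_ifs <;> simp)
  exact rub p l e N hl hlp hord _ Q hQ0 hQd hQ hg1

end Pool.Agent.H320.DA
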