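import Pool.Agent.H320.DA.Stm

/-!
A bounded group of matrices over the q-adic numbers stabilizes a lattice.
-/

set_option autoImplicit false

namespace Pool.Agent.H320.DA

namespace LATx

variable {q N : ℕ} [Fact q.Prime] {G : Type} [Group G]

/-- matrices whose columns lie in the lattice -/
def K (Λ : G →* Matrix (Fin N) (Fin N) ℚ_[q]) : Set (Matrix (Fin N) (Fin N) ℚ_[q]) :=
  {B | ∀ g i j, ‖(Λ g * B) i j‖ ≤ 1}

lemma K_compact (Λ : G →* Matrix (Fin N) (Fin N) ℚ_[q]) : IsCompact (K Λ) := by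
  have h1 : IsCompact (Set.pi Set.univ (fun _ : Fin N => Set.pi Set.univ
      (fun _ : Fin N => Metric.closedBall (0 : ℚ_[q]) 1))) :=
    isCompact_univ_pi (fun _ => isCompact_univ_pi (fun _ => isCompact_closedBall 0 1))
  refine IsCompact.of_isClosed_subset h1 ?_ ?_
  · have h2 : K Λ = ⋂ g, ⋂ i, ⋂ j, {B : Matrix (Fin N) (Fin N) ℚ_[q] | ‖(Λ g * B) i j‖ ≤ 1} := by
      ext B
      simp only [K, Set.mem_ofPred_eq, Set.mem_iInter]
    rw [h2]
    refine isClosed_iInter (fun g => isClosed_iInter (fun i => isClosed_iInter (fun j => ?_)))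
    refine isClosed_le ?_ continuous_const
    refine continuous_norm.comp ?_
    have h3 : Continuous (fun B : Matrix (Fin N) (Fin N) ℚ_[q] => Λ g * B) :=
      Continuous.matrix_mul continuous_const continuous_id
    exact h3.matrix_elem i j
  · intro B hB i _ j _
    have h := hB 1 i j
    rw [map_one, one_mul] at h
    rw [Metric.mem_closedBall, dist_zero_right]
    exact h

lemma exists_scalar (Λ : G →* Matrix (Fin N) (Fin N) ℚ_[q]) (C : ℝ)
    (hC : ∀ g i j, ‖Λ g i j‖ ≤ C) :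
    ∃ c : ℚ_[q], c ≠ 0 ∧ c • (1 : Matrix (Fin N) (Fin N) ℚ_[q]) ∈ K Λ := by
  have hq : (1 : ℝ) < q := by exact_mod_cast (Fact.out : q.Prime).one_lt
  obtain ⟨k, hk⟩ := exists_pow_lt_of_lt_one (x := 1 / (|C| + 1)) (by positivity)
    (inv_lt_one_of_one_lt₀ hq)
  refine ⟨(q : ℚ_[q]) ^ k, pow_ne_zero k (by exact_mod_cast (Fact.out : q.Prime).ne_zero), ?_⟩
  intro g i j
  rw [Matrix.mul_smul, mul_one, Matrix.smul_apply, smul_eq_mul, norm_mul, norm_pow, Padic.norm_p]
  have h1 : ‖Λ g i j‖ ≤ |C| + 1 := (hC g i j).trans ((le_abs_self C).trans (by linarith))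
  have h2 : (0 : ℝ) < |C| + 1 := by positivity
  calc ((q : ℝ)⁻¹) ^ k * ‖Λ g i j‖ ≤ (1 / (|C| + 1)) * (|C| + 1) :=
        mul_le_mul hk.le h1 (norm_nonneg _) (by positivity)
    _ = 1 := by field_simp

end LATx

open LATx in
/-- LAT: a bounded group of matrices over the q-adic numbers stabilizes a lattice. -/
theorem lat : LAT := by
  intro q N _ G _ Λ C hC
  obtain ⟨c, hc, hcK⟩ := exists_scalar Λ C hC
  have hcont : ContinuousOn (fun B : Matrix (Fin N) (Fin N) ℚ_[q] => ‖B.det‖) (K Λ) :=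
    (continuous_norm.comp (Continuous.matrix_det continuous_id)).continuousOn
  obtain ⟨B, hBK, hmax⟩ := (K_compact Λ).exists_isMaxOn ⟨_, hcK⟩ hcont
  have hmax' : ∀ A ∈ K Λ, ‖A.det‖ ≤ ‖B.det‖ := fun A hA => hmax hA
  have hdet : B.det ≠ 0 := by
    intro h0
    have h1 := hmax' _ hcK
    rw [h0, norm_zero, Matrix.det_smul, Matrix.det_one, mul_one, norm_pow] at h1
    have h2 : 0 < ‖c‖ ^ Fintype.card (Fin N) := pow_pos (norm_pos_iff.2 hc) _
    linarith
  have hunit : IsUnit B.det := isUnit_iff_ne_zero.2 hdet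
  refine ⟨B⁻¹, B, Matrix.nonsing_inv_mul B hunit, Matrix.mul_nonsing_inv B hunit, ?_⟩
  intro g i j
  have e1 : (B⁻¹ * Λ g * B) i j = (B.det)⁻¹ * (B.updateCol i (fun k => (Λ g * B) k j)).det := by
    rw [← Matrix.cramer_apply, Matrix.cramer_eq_adjugate_mulVec, mul_assoc, Matrix.inv_def,
      Ring.inverse_eq_inv', Matrix.smul_mul, Matrix.smul_apply, smul_eq_mul]
    rfl
  have hK : B.updateCol i (fun k => (Λ g * B) k j) ∈ K Λ := by
    intro h a b
    by_cases hb : b = i
    · have e2 : (Λ h * B.updateCol i (fun k => (Λ g * B) k j)) a b = (Λ (h * g) * B) a j := by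
        rw [map_mul, mul_assoc, Matrix.mul_apply, Matrix.mul_apply]
        refine Finset.sum_congr rfl (fun k _ => ?_)
        rw [hb, Matrix.updateCol_self]
      rw [e2]
      exact hBK (h * g) a j
    · have e2 : (Λ h * B.updateCol i (fun k => (Λ g * B) k j)) a b = (Λ h * B) a b := by
        rw [Matrix.mul_apply, Matrix.mul_apply]
        refine Finset.sum_congr rfl (fun k _ => ?_)
        rw [Matrix.updateCol_ne hb]
      rw [e2]
      exact hBK h a b
  have h3 := hmax' _ hK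
  rw [e1, norm_mul, norm_inv]
  have h4 : 0 < ‖B.det‖ := norm_pos_iff.2 hdet
  rw [inv_mul_le_iff₀ h4, mul_one]
  exact h3

end Pool.Agent.H320.DA
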