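import Pool.Agent.H320.DA.Stm

/-! helper409: RED -/

set_option autoImplicit false

open Polynomial

namespace Pool.Agent.H320.DA

namespace REDx

theorem aeval_map_mat {R S : Type} [CommRing R] [CommRing S] (f : R →+* S) {N : ℕ}
    (M : Matrix (Fin N) (Fin N) R) (P : R[X]) :
    aeval (f.mapMatrix M) (P.map f) = f.mapMatrix (aeval M P) := by
  induction P using Polynomial.induction_on' with
  | add p q hp hq => rw [Polynomial.map_add, map_add, map_add, map_add, hp, hq]
  | monomial n a =>
    rw [Polynomial.map_monomial, aeval_monomial, aeval_monomial, map_mul, map_pow]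
    congr 1
    ext i j
    rw [RingHom.mapMatrix_apply, Matrix.map_apply, Matrix.algebraMap_matrix_apply,
      Matrix.algebraMap_matrix_apply]
    by_cases h : i = j
    · simp [h]
    · simp [h]

end REDx

open REDx

theorem red : RED := by
  intro p e N _ M P hP he hM
  obtain ⟨k, hk, hmax⟩ := Finset.exists_max_image P.support (fun i => ‖P.coeff i‖)
    (Polynomial.support_nonempty.2 hP)
  set c : ℚ_[p] := P.coeff k with hc
  have hc0 : c ≠ 0 := Polynomial.mem_support_iff.1 hk
  have hcn : 0 < ‖c‖ := norm_pos_iff.2 hc0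
  have hle : ∀ i, ‖c⁻¹ * P.coeff i‖ ≤ 1 := by
    intro i
    rw [norm_mul, norm_inv, inv_mul_le_iff₀ hcn, mul_one]
    by_cases hi : i ∈ P.support
    · exact hmax i hi
    · rw [Polynomial.notMem_support_iff.1 hi, norm_zero]
      exact hcn.le
  set a : ℕ → ℤ_[p] := fun i => ⟨c⁻¹ * P.coeff i, hle i⟩ with ha
  set P1 : ℤ_[p][X] := ∑ i ∈ P.support, monomial i (a i) with hP1
  have hcoeff : ∀ i, P1.coeff i = a i := by
    intro i
    rw [hP1, finsetSum_coeff]
    simp only [coeff_monomial]
    rw [Finset.sum_ite_eq' P.support i a]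
    split_ifs with h
    · rfl
    · have h0 : P.coeff i = 0 := Polynomial.notMem_support_iff.1 h
      apply Subtype.ext
      show (0 : ℚ_[p]) = c⁻¹ * P.coeff i
      rw [h0, mul_zero]
  have hmap : P1.map (PadicInt.Coe.ringHom (p := p)) = C c⁻¹ * P := by
    ext i
    rw [coeff_map, hcoeff, coeff_C_mul]
    rfl
  have h1 : aeval (mq p M) (P1.map (PadicInt.Coe.ringHom (p := p))) = 0 := by
    rw [hmap, map_mul, hM, mul_zero]
  have h2 : aeval M P1 = 0 := by
    have h3 := aeval_map_mat (PadicInt.Coe.ringHom (p := p)) M P1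
    have h4 : (PadicInt.Coe.ringHom (p := p)).mapMatrix (aeval M P1) = 0 := by
      rw [← h3]
      exact h1
    ext i j
    have h5 : PadicInt.Coe.ringHom (p := p) ((aeval M P1) i j) = 0 := congrFun (congrFun h4 i) j
    exact Subtype.ext h5
  refine ⟨P1.map (PadicInt.toZMod (p := p)), ?_, ?_, ?_⟩
  · intro h0
    have h3 := congrArg (fun Q => Q.coeff k) h0
    simp only [coeff_map, hcoeff, coeff_zero] at h3
    have h4 : a k = 1 := by
      apply Subtype.ext
      show c⁻¹ * P.coeff k = 1
      rw [← hc, inv_mul_cancel₀ hc0]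
    rw [h4, map_one] at h3
    exact one_ne_zero h3
  · refine (natDegree_map_le).trans (natDegree_le_iff_coeff_eq_zero.2 fun i hi => ?_)
    rw [hcoeff]
    apply Subtype.ext
    show c⁻¹ * P.coeff i = 0
    rw [coeff_eq_zero_of_natDegree_lt (lt_of_le_of_lt he hi), mul_zero]
  · have h3 := aeval_map_mat (PadicInt.toZMod (p := p)) M P1
    rw [h2, map_zero] at h3
    exact h3

end Pool.Agent.H320.DA
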