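import Pool.Agent.H320.DA.StmK

/-!
Restriction of scalars for bounded matrix groups over a finite extension of the `q`-adic numbers.
-/

set_option autoImplicit false

namespace Pool.Agent.H320.DA

/-- RSC holds -/
theorem rsc : RSC := by
  intro q N _ L _ _ _ G _ Λ C hinj hC
  classical
  let b := Module.finBasis ℚ_[q] (Matrix (Fin N) (Fin N) L)
  let R : Matrix (Fin N) (Fin N) L →ₐ[ℚ_[q]]
      Matrix (Fin (Module.finrank ℚ_[q] (Matrix (Fin N) (Fin N) L)))
        (Fin (Module.finrank ℚ_[q] (Matrix (Fin N) (Fin N) L))) ℚ_[q] := Algebra.leftMulMatrix b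
  have hR : Function.Injective R := Algebra.leftMulMatrix_injective b
  let Φ : (Fin N → Fin N → L) →ₗ[ℚ_[q]]
      (Fin (Module.finrank ℚ_[q] (Matrix (Fin N) (Fin N) L)) →
        Fin (Module.finrank ℚ_[q] (Matrix (Fin N) (Fin N) L)) → ℚ_[q]) := R.toLinearMap
  let Ψ := LinearMap.toContinuousLinearMap Φ
  refine ⟨Module.finrank ℚ_[q] (Matrix (Fin N) (Fin N) L), (R : _ →* _).comp Λ, ‖Ψ‖ * max C 0,
    hR.comp hinj, ?_, ?_⟩
  · intro g i j
    let v : Fin N → Fin N → L := Λ g
    have h1 : ‖Ψ v‖ ≤ ‖Ψ‖ * ‖v‖ := Ψ.le_opNorm v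
    have h2 : ‖v‖ ≤ max C 0 := by
      refine (pi_norm_le_iff_of_nonneg (le_max_right C 0)).2 fun i => ?_
      refine (pi_norm_le_iff_of_nonneg (le_max_right C 0)).2 fun j => ?_
      exact (hC g i j).trans (le_max_left C 0)
    have h3 : ‖Ψ v i j‖ ≤ ‖Ψ v‖ :=
      (norm_le_pi_norm (Ψ v i) j).trans (norm_le_pi_norm (Ψ v) i)
    exact h3.trans (h1.trans (mul_le_mul_of_nonneg_left h2 (norm_nonneg _)))
  · intro k hk T hT hTk
    have hker : LinearMap.ker R.toLinearMap = ⊥ := LinearMap.ker_eq_bot.2 hR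
    have hemb : Topology.IsClosedEmbedding R.toLinearMap :=
      LinearMap.isClosedEmbedding_of_injective hker
    have hrange : Set.range ((R : _ →* _).comp Λ) = R.toLinearMap '' Set.range Λ := by
      rw [← Set.range_comp]
      rfl
    rw [hrange, hemb.closure_image_eq] at hT
    obtain ⟨T₀, hT₀, rfl⟩ := hT
    have h4 : T₀ ^ k = 1 := by
      apply hR
      rw [map_pow, map_one]
      exact hTk
    have h5 := hk T₀ hT₀ h4
    rw [h5]
    exact map_one R

end Pool.Agent.H320.DA
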