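import Pool.Agent.H320.DA.Stm

/-!
Matrices with `1 + t + ... + t ^ (l - 1) = 0` over a prime field: the powers of `t` act on the vectors, and `0` is the
only fixed point, so `q ^ N` is `1` modulo `l`.
-/

set_option autoImplicit false

namespace Pool.Agent.H320.DA

namespace RUAx

open Matrix

variable {q l N : ℕ} [Fact q.Prime]

/-- the map given by the matrix -/
def act (t : Matrix (Fin N) (Fin N) (ZMod q)) : Function.End (Fin N → ZMod q) :=
  fun v => t.mulVec v

theorem act_pow (t : Matrix (Fin N) (Fin N) (ZMod q)) (n : ℕ) : act t ^ n = act (t ^ n) := by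
  induction n with
  | zero =>
    rw [pow_zero, pow_zero]
    funext v
    show v = (1 : Matrix (Fin N) (Fin N) (ZMod q)).mulVec v
    rw [Matrix.one_mulVec]
  | succ n ih =>
    rw [pow_succ, pow_succ, ih]
    funext v
    show (t ^ n).mulVec (t.mulVec v) = (t ^ n * t).mulVec v
    rw [Matrix.mulVec_mulVec]

end RUAx

open RUAx in
theorem rua : RUA := by
  intro q l N hq hl hlq t ht
  have : Fact l.Prime := ⟨hl⟩
  classical
  have h1 : t ^ l = 1 := by
    have h2 := geom_sum_mul t l
    rw [ht, zero_mul] at h2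
    exact (sub_eq_zero.mp h2.symm)
  have h3 : act t ^ l ^ 1 = 1 := by
    rw [pow_one, act_pow, h1]
    funext v
    show (1 : Matrix (Fin N) (Fin N) (ZMod q)).mulVec v = v
    rw [Matrix.one_mulVec]
  have h4 := Equiv.Perm.card_fixedPoints_modEq (f := act t) (p := l) (n := 1) h3
  -- the only fixed point is `0`
  have hl0 : ((l : ℕ) : ZMod q) ≠ 0 := by
    rw [Ne, ZMod.natCast_eq_zero_iff]
    intro hd
    exact hlq (((Nat.prime_dvd_prime_iff_eq hq.out hl).mp hd).symm)
  have h5 : ∀ v : Fin N → ZMod q, t.mulVec v = v → v = 0 := by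
    intro v hv
    have h6 : ∀ i : ℕ, (t ^ i).mulVec v = v := by
      intro i
      induction i with
      | zero => rw [pow_zero, Matrix.one_mulVec]
      | succ i ih => rw [pow_succ, ← Matrix.mulVec_mulVec, hv, ih]
    have h7 : (∑ i ∈ Finset.range l, t ^ i).mulVec v = (l : ZMod q) • v := by
      rw [Matrix.sum_mulVec]
      rw [Finset.sum_congr rfl fun i _ => h6 i, Finset.sum_const, Finset.card_range]
      exact (Nat.cast_smul_eq_nsmul (ZMod q) l v).symm
    rw [ht, Matrix.zero_mulVec] at h7
    rcases smul_eq_zero.mp h7.symm with h8 | h8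
    · exact absurd h8 hl0
    · exact h8
  have h9 : ∀ inst : Fintype (Function.fixedPoints (act t)),
      @Fintype.card (Function.fixedPoints (act t)) inst = 1 := by
    intro inst
    rw [Fintype.card_eq_one_iff]
    refine ⟨⟨0, ?_⟩, ?_⟩
    · show t.mulVec 0 = 0
      exact Matrix.mulVec_zero t
    · rintro ⟨v, hv⟩
      exact Subtype.ext (h5 v hv)
  rw [h9] at h4
  have h10 : Fintype.card (Fin N → ZMod q) = q ^ N := by
    rw [Fintype.card_fun, ZMod.card, Fintype.card_fin]
  rw [h10] at h4
  apply orderOf_dvd_of_pow_eq_one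
  have h11 := (ZMod.natCast_eq_natCast_iff _ _ _).mpr h4
  push_cast at h11
  exact h11

end Pool.Agent.H320.DA
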