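import Pool.Agent.H320.DA.Stm

/-!
helper668: elements of order `l` of small degree over `F_p` are trivial
-/

set_option autoImplicit false

open Polynomial

namespace Pool.Agent.H320.DA

namespace RUBx

theorem coprime (p l e : ℕ) [Fact p.Prime] (hl : l.Prime) (hlp : l ≠ p)
    (he : e < orderOf (p : ZMod l)) (Q : (ZMod p)[X]) (hQ : Q ≠ 0) (hQd : Q.natDegree ≤ e) :
    IsCoprime Q (cyclotomic l (ZMod p)) := by
  have hp : p.Prime := Fact.out
  refine isCoprime_of_irreducible_dvd (fun h => hQ h.1) fun P hP hPQ hPc => ?_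
  have hn : p.Coprime l := (Nat.coprime_primes hp hl).2 (Ne.symm hlp)
  have hK : Fintype.card (ZMod p) = p ^ 1 := by rw [ZMod.card, pow_one]
  have h1 := natDegree_of_dvd_cyclotomic_of_irreducible hK hn hPc hP
  rw [← orderOf_units, ZMod.coe_unitOfCoprime, pow_one] at h1
  have h2 := natDegree_le_of_dvd hPQ hQ
  omega

end RUBx

open RUBx in
theorem rub : RUB := by
  intro p l e N _ hl hlp he t Q hQ hQd hQt ht
  obtain ⟨a, b, hab⟩ := coprime p l e hl hlp he Q hQ hQd
  have h1 := congrArg (aeval t) hab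
  rw [map_add, map_mul, map_mul, hQt, mul_zero, zero_add, map_one] at h1
  have : Fact l.Prime := ⟨hl⟩
  have h2 := congrArg (aeval t) (cyclotomic_prime_mul_X_sub_one (ZMod p) l)
  rw [map_mul, map_sub, map_sub, map_pow, aeval_X, map_one, ht, sub_self] at h2
  have h3 : t - 1 = aeval t b * (aeval t (cyclotomic l (ZMod p)) * (t - 1)) := by
    rw [← mul_assoc, h1, one_mul]
  rw [h2, mul_zero] at h3
  exact sub_eq_zero.1 h3

end Pool.Agent.H320.DA
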