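import Pool.Agent.H320.DA.Stm
import Pool.Agent.H320.GS.NT_C1

/-!
Project DA of helper320, part SCA: the roots of unity of order l in a q-adic division algebra, l | q - 1.
-/

set_option autoImplicit false

open Polynomial

namespace Pool.Agent.H320.DA

namespace SCAx

theorem factor {k E : Type} [Field k] [Ring E] [Algebra k E] [NoZeroDivisors E] [Nontrivial E]
    (x : E) (s : Finset k) (h : aeval x (∏ r ∈ s, (X - C r : k[X])) = 0) :
    ∃ r ∈ s, x = algebraMap k E r := by
  classical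
  induction s using Finset.induction_on with
  | empty =>
    rw [Finset.prod_empty, map_one] at h
    exact absurd h one_ne_zero
  | insert a s ha ih =>
    rw [Finset.prod_insert ha, map_mul] at h
    rcases mul_eq_zero.1 h with h1 | h1
    · refine ⟨a, Finset.mem_insert_self a s, ?_⟩
      rw [map_sub, aeval_X, aeval_C, sub_eq_zero] at h1
      exact h1
    · obtain ⟨r, hr, hx⟩ := ih h1
      exact ⟨r, Finset.mem_insert_of_mem hr, hx⟩

end SCAx

theorem sca : SCA := by
  intro q l N _ E _ _ _ b x hl hlq hlN hx hdet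
  have hN : N ≠ 0 := by
    rintro rfl
    exact hlN (dvd_zero l)
  obtain ⟨ξ, hξ⟩ := Pool.Agent.H320.NT.c1 l q hl.pos hlq
  have hζ : IsPrimitiveRoot ((PadicInt.Coe.ringHom (p := q)) ξ) l :=
    hξ.map_of_injective (f := PadicInt.Coe.ringHom (p := q)) Subtype.coe_injective
  have : Nontrivial E := ⟨⟨b ⟨0, Nat.pos_of_ne_zero hN⟩, 0, b.ne_zero _⟩⟩
  have h1 : aeval x (∏ r ∈ nthRootsFinset l (1 : ℚ_[q]), (X - C r : ℚ_[q][X])) = 0 := by
    rw [← X_pow_sub_one_eq_prod hl.pos hζ, map_sub, map_pow, aeval_X, map_one, hx, sub_self]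
  obtain ⟨r, hr, hxr⟩ := SCAx.factor x _ h1
  rw [mem_nthRootsFinset hl.pos] at hr
  have h2 : LinearMap.mulLeft ℚ_[q] x = r • LinearMap.id := by
    ext y
    rw [LinearMap.mulLeft_apply, LinearMap.smul_apply, LinearMap.id_apply, Algebra.smul_def, hxr]
  rw [h2, LinearMap.det_smul, LinearMap.det_id, mul_one, Module.finrank_eq_card_basis b,
    Fintype.card_fin] at hdet
  have h3 : r ^ Nat.gcd l N = 1 := pow_gcd_eq_one.2 ⟨hr, hdet⟩
  rw [Nat.Coprime.gcd_eq_one ((Nat.Prime.coprime_iff_not_dvd hl).2 hlN), pow_one] at h3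
  rw [hxr, h3, map_one]

end Pool.Agent.H320.DA
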