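import Mathlib

/-!
helper320: statements of lemmas on division algebras over the rational numbers and their completions.
-/

set_option autoImplicit false

open Polynomial

namespace Pool.Agent.H320.DA

/-- the coercion of a matrix over `ℤ_p` to `ℚ_p` -/
noncomputable def mq (p : ℕ) [Fact p.Prime] {N : ℕ} (M : Matrix (Fin N) (Fin N) ℤ_[p]) :
    Matrix (Fin N) (Fin N) ℚ_[p] := (PadicInt.Coe.ringHom (p := p)).mapMatrix M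

/-- the reduction of a matrix over `ℤ_p` -/
noncomputable def mz (p : ℕ) [Fact p.Prime] {N : ℕ} (M : Matrix (Fin N) (Fin N) ℤ_[p]) :
    Matrix (Fin N) (Fin N) (ZMod p) := (PadicInt.toZMod (p := p)).mapMatrix M

/-- `t` is a limit of elements of the image of `φ` -/
def Lm (p : ℕ) [Fact p.Prime] {N : ℕ} {G : Type} [Group G]
    (φ : G →* (Matrix (Fin N) (Fin N) ℤ_[p])ˣ) (t : Matrix (Fin N) (Fin N) ℤ_[p]) : Prop :=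
  ∀ j : ℕ, ∃ (g : G) (a : Matrix (Fin N) (Fin N) ℤ_[p]),
    ((φ g : (Matrix (Fin N) (Fin N) ℤ_[p])ˣ) : Matrix (Fin N) (Fin N) ℤ_[p]) =
      t + (p : Matrix (Fin N) (Fin N) ℤ_[p]) ^ j * a

/-- RUA -/
def RUA : Prop := ∀ (q l N : ℕ) [Fact q.Prime], l.Prime → l ≠ q →
  ∀ t : Matrix (Fin N) (Fin N) (ZMod q), ∑ i ∈ Finset.range l, t ^ i = 0 →
    orderOf (q : ZMod l) ∣ N

/-- RUB -/
def RUB : Prop := ∀ (p l e N : ℕ) [Fact p.Prime], l.Prime → l ≠ p → e < orderOf (p : ZMod l) →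
  ∀ (t : Matrix (Fin N) (Fin N) (ZMod p)) (Q : (ZMod p)[X]), Q ≠ 0 → Q.natDegree ≤ e →
    aeval t Q = 0 → t ^ l = 1 → t = 1

/-- RED -/
def RED : Prop := ∀ (p e N : ℕ) [Fact p.Prime] (M : Matrix (Fin N) (Fin N) ℤ_[p]) (P : ℚ_[p][X]),
  P ≠ 0 → P.natDegree ≤ e → aeval (mq p M) P = 0 →
    ∃ Q : (ZMod p)[X], Q ≠ 0 ∧ Q.natDegree ≤ e ∧ aeval (mz p M) Q = 0

/-- TEI -/
def TEI : Prop := ∀ (q l N : ℕ) [Fact q.Prime], l.Prime → l ≠ q → ∀ (G : Type) [Group G]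
  (φ : G →* (Matrix (Fin N) (Fin N) ℤ_[q])ˣ) (g : G),
  mz q ((φ g : (Matrix (Fin N) (Fin N) ℤ_[q])ˣ) : Matrix (Fin N) (Fin N) ℤ_[q]) ^ l = 1 →
  mz q ((φ g : (Matrix (Fin N) (Fin N) ℤ_[q])ˣ) : Matrix (Fin N) (Fin N) ℤ_[q]) ≠ 1 →
    ∃ t : Matrix (Fin N) (Fin N) ℤ_[q], Lm q φ t ∧ t ^ l = 1 ∧ t ≠ 1

/-- LAT -/
def LAT : Prop := ∀ (q N : ℕ) [Fact q.Prime] (G : Type) [Group G]
  (Λ : G →* Matrix (Fin N) (Fin N) ℚ_[q]) (C : ℝ), (∀ g i j, ‖Λ g i j‖ ≤ C) →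
    ∃ P P' : Matrix (Fin N) (Fin N) ℚ_[q], P * P' = 1 ∧ P' * P = 1 ∧
      ∀ g i j, ‖(P * Λ g * P') i j‖ ≤ 1

/-- BND -/
def BND : Prop := ∀ (q N : ℕ) [Fact q.Prime] (E : Type) [Ring E] [Algebra ℚ_[q] E]
  [NoZeroDivisors E] (b : Module.Basis (Fin N) ℚ_[q] E), ∃ C : ℝ, ∀ x : E,
    ‖LinearMap.det (LinearMap.mulLeft ℚ_[q] x)‖ = 1 →
      ∀ i j, ‖LinearMap.toMatrix b b (LinearMap.mulLeft ℚ_[q] x) i j‖ ≤ C

/-- SCA -/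
def SCA : Prop := ∀ (q l N : ℕ) [Fact q.Prime] (E : Type) [Ring E] [Algebra ℚ_[q] E]
  [NoZeroDivisors E] (_ : Module.Basis (Fin N) ℚ_[q] E) (x : E), l.Prime → l ∣ q - 1 →
    ¬ l ∣ N → x ^ l = 1 → LinearMap.det (LinearMap.mulLeft ℚ_[q] x) = 1 → x = 1

/-- DEN -/
def DEN : Prop := ∀ (N : ℕ) (G : Type) [Group G] (Λ : G →* Matrix (Fin N) (Fin N) ℚ),
  Group.FG G → ∃ m : ℕ, ∀ (p : ℕ) [Fact p.Prime], m < p → ∀ g i j, ‖((Λ g i j : ℚ) : ℚ_[p])‖ ≤ 1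

/-- CLO -/
def CLO : Prop := ∀ (q N : ℕ) [Fact q.Prime] (E : Type) [Ring E] [Algebra ℚ_[q] E]
  (b : Module.Basis (Fin N) ℚ_[q] E) (G : Type) [Group G]
  (φ : G →* (Matrix (Fin N) (Fin N) ℤ_[q])ˣ) (x : G → E)
  (P P' : Matrix (Fin N) (Fin N) ℚ_[q]), P * P' = 1 → P' * P = 1 →
  (∀ g, LinearMap.toMatrix b b (LinearMap.mulLeft ℚ_[q] (x g)) =
    P' * mq q ((φ g : (Matrix (Fin N) (Fin N) ℤ_[q])ˣ) : Matrix (Fin N) (Fin N) ℤ_[q]) * P) →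
  (∀ g, ((φ g : (Matrix (Fin N) (Fin N) ℤ_[q])ˣ) : Matrix (Fin N) (Fin N) ℤ_[q]).det = 1) →
  ∀ t, Lm q φ t → t.det = 1 ∧ ∃ y : E,
    LinearMap.toMatrix b b (LinearMap.mulLeft ℚ_[q] y) = P' * mq q t * P

end Pool.Agent.H320.DA
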