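import Pool.Agent.H320.DA.Stm

/-!
helper725 for helper320: Teichmueller elements in the closure of a matrix group.
-/

set_option autoImplicit false

open Filter Topology

namespace Pool.Agent.H320.DA

namespace TEIx

variable {q N : ℕ} [Fact q.Prime]

/-- `x` is divisible by `q ^ j` -/
def Dv (q : ℕ) [Fact q.Prime] {N : ℕ} (j : ℕ) (x : Matrix (Fin N) (Fin N) ℤ_[q]) : Prop :=
  ∃ a : Matrix (Fin N) (Fin N) ℤ_[q], x = (q : Matrix (Fin N) (Fin N) ℤ_[q]) ^ j * a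

theorem comm_q (j : ℕ) (x : Matrix (Fin N) (Fin N) ℤ_[q]) :
    x * (q : Matrix (Fin N) (Fin N) ℤ_[q]) ^ j = (q : Matrix (Fin N) (Fin N) ℤ_[q]) ^ j * x :=
  (((Nat.cast_commute q x).pow_left j).eq).symm

theorem Dv.add {j : ℕ} {x y : Matrix (Fin N) (Fin N) ℤ_[q]} (hx : Dv q j x) (hy : Dv q j y) :
    Dv q j (x + y) := by
  obtain ⟨a, rfl⟩ := hx
  obtain ⟨b, rfl⟩ := hy
  exact ⟨a + b, by rw [mul_add]⟩

theorem Dv.neg {j : ℕ} {x : Matrix (Fin N) (Fin N) ℤ_[q]} (hx : Dv q j x) : Dv q j (-x) := by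
  obtain ⟨a, rfl⟩ := hx
  exact ⟨-a, by rw [mul_neg]⟩

theorem Dv.mul_right {j : ℕ} {x : Matrix (Fin N) (Fin N) ℤ_[q]} (hx : Dv q j x)
    (y : Matrix (Fin N) (Fin N) ℤ_[q]) : Dv q j (x * y) := by
  obtain ⟨a, rfl⟩ := hx
  exact ⟨a * y, by rw [mul_assoc]⟩

theorem Dv.mul_left {j : ℕ} {x : Matrix (Fin N) (Fin N) ℤ_[q]} (hx : Dv q j x)
    (y : Matrix (Fin N) (Fin N) ℤ_[q]) : Dv q j (y * x) := by
  obtain ⟨a, rfl⟩ := hx
  exact ⟨y * a, by rw [← mul_assoc, comm_q, mul_assoc]⟩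

theorem Dv.mul {i j : ℕ} {x y : Matrix (Fin N) (Fin N) ℤ_[q]} (hx : Dv q i x) (hy : Dv q j y) :
    Dv q (i + j) (x * y) := by
  obtain ⟨a, rfl⟩ := hx
  obtain ⟨b, rfl⟩ := hy
  refine ⟨a * b, ?_⟩
  rw [mul_assoc, ← mul_assoc a, comm_q, pow_add, mul_assoc, mul_assoc]

theorem Dv.mono {i j : ℕ} (h : i ≤ j) {x : Matrix (Fin N) (Fin N) ℤ_[q]} (hx : Dv q j x) :
    Dv q i x := by
  obtain ⟨a, rfl⟩ := hx
  obtain ⟨k, rfl⟩ := Nat.exists_eq_add_of_le h
  exact ⟨(q : Matrix (Fin N) (Fin N) ℤ_[q]) ^ k * a, by rw [pow_add, mul_assoc]⟩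

theorem Dv.zero (j : ℕ) : Dv q j (0 : Matrix (Fin N) (Fin N) ℤ_[q]) := ⟨0, by rw [mul_zero]⟩

theorem Dv.sum {j : ℕ} {ι : Type} (s : Finset ι) (f : ι → Matrix (Fin N) (Fin N) ℤ_[q])
    (h : ∀ i ∈ s, Dv q j (f i)) : Dv q j (∑ i ∈ s, f i) := by
  classical
  induction s using Finset.induction_on with
  | empty => rw [Finset.sum_empty]; exact Dv.zero j
  | insert a s ha ih =>
    rw [Finset.sum_insert ha]
    exact (h a (Finset.mem_insert_self _ _)).add (ih fun i hi => h i (Finset.mem_insert_of_mem hi))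

theorem geom (x : Matrix (Fin N) (Fin N) ℤ_[q]) (n : ℕ) :
    x ^ n - 1 = (x - 1) * ∑ i ∈ Finset.range n, x ^ i := (mul_geom_sum x n).symm

/-- one step of the lifting -/
theorem step {j : ℕ} (hj : 1 ≤ j) {x : Matrix (Fin N) (Fin N) ℤ_[q]} (hx : Dv q j (x - 1)) :
    Dv q (j + 1) (x ^ q - 1) := by
  rw [geom]
  refine hx.mul ?_
  have e : ∑ i ∈ Finset.range q, x ^ i = (∑ i ∈ Finset.range q, (x ^ i - 1)) +
      (q : Matrix (Fin N) (Fin N) ℤ_[q]) := by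
    rw [Finset.sum_sub_distrib, Finset.sum_const, Finset.card_range, nsmul_eq_mul, mul_one,
      sub_add_cancel]
  rw [e]
  refine Dv.add (Dv.sum _ _ fun i _ => ?_) ⟨1, by rw [pow_one, mul_one]⟩
  rw [geom]
  exact (hx.mono hj).mul_right _

theorem lift {x : Matrix (Fin N) (Fin N) ℤ_[q]} (hx : Dv q 1 (x - 1)) (n : ℕ) :
    Dv q (n + 1) (x ^ q ^ n - 1) := by
  induction n with
  | zero => simpa using hx
  | succ n ih =>
    rw [pow_succ, pow_mul]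
    exact step (by omega) ih

theorem pow_congr {j : ℕ} {x y : Matrix (Fin N) (Fin N) ℤ_[q]} (h : Dv q j (x - y)) (n : ℕ) :
    Dv q j (x ^ n - y ^ n) := by
  induction n with
  | zero => rw [pow_zero, pow_zero, sub_self]; exact Dv.zero j
  | succ n ih =>
    have e : x ^ (n + 1) - y ^ (n + 1) = x ^ n * (x - y) + (x ^ n - y ^ n) * y := by
      rw [pow_succ, pow_succ, mul_sub, sub_mul]
      abel
    rw [e]
    exact (h.mul_left _).add (ih.mul_right _)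

theorem q_mul (j : ℕ) (a : Matrix (Fin N) (Fin N) ℤ_[q]) (i k : Fin N) :
    ((q : Matrix (Fin N) (Fin N) ℤ_[q]) ^ j * a) i k = (q : ℤ_[q]) ^ j * a i k := by
  rw [← Nat.cast_pow, ← nsmul_eq_mul, Matrix.smul_apply, nsmul_eq_mul, Nat.cast_pow]

theorem dv_iff {j : ℕ} {x : Matrix (Fin N) (Fin N) ℤ_[q]} :
    Dv q j x ↔ ∀ i k, (q : ℤ_[q]) ^ j ∣ x i k := by
  constructor
  · rintro ⟨a, rfl⟩ i k
    rw [q_mul]
    exact dvd_mul_right _ _
  · intro h
    choose a ha using h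
    refine ⟨Matrix.of a, ?_⟩
    ext i k
    rw [q_mul, ha i k, Matrix.of_apply]

theorem dvd_iff_norm (z : ℤ_[q]) (j : ℕ) : (q : ℤ_[q]) ^ j ∣ z ↔ ‖z‖ ≤ (q : ℝ) ^ (-(j : ℤ)) := by
  rw [PadicInt.norm_le_pow_iff_mem_span_pow, Ideal.mem_span_singleton]

theorem eq_zero_of_dv {x : Matrix (Fin N) (Fin N) ℤ_[q]} (h : ∀ j, Dv q j x) : x = 0 := by
  have hq1 : (1 : ℝ) < q := by exact_mod_cast (Fact.out : q.Prime).one_lt
  ext i k
  by_contra hne
  have hne' : x i k ≠ 0 := fun h => hne (by rw [h]; rfl)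
  have h0 : 0 < ‖x i k‖ := norm_pos_iff.2 hne'
  obtain ⟨j, hj⟩ := exists_pow_lt_of_lt_one h0 (inv_lt_one_of_one_lt₀ hq1)
  have h1 := (dvd_iff_norm (x i k) j).1 (dv_iff.1 (h j) i k)
  rw [zpow_neg, zpow_natCast, ← inv_pow] at h1
  exact absurd h1 (not_le.2 hj)

theorem dv_of_mz {x : Matrix (Fin N) (Fin N) ℤ_[q]} (h : mz q x = 1) : Dv q 1 (x - 1) := by
  rw [dv_iff]
  intro i k
  rw [pow_one, ← Ideal.mem_span_singleton, ← PadicInt.maximalIdeal_eq_span_p, ← PadicInt.ker_toZMod,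
    RingHom.mem_ker]
  have h1 : mz q (x - 1) = 0 := by
    unfold mz at h ⊢
    rw [map_sub, h, map_one, sub_self]
  have h2 := congrFun (congrFun h1 i) k
  exact h2

theorem mz_of_dv {x y : Matrix (Fin N) (Fin N) ℤ_[q]} (h : Dv q 1 (x - y)) : mz q x = mz q y := by
  obtain ⟨a, ha⟩ := h
  have e : x = y + (q : Matrix (Fin N) (Fin N) ℤ_[q]) ^ 1 * a := by rw [← ha]; abel
  ext i k
  have h1 : x i k = y i k + (q : ℤ_[q]) ^ 1 * a i k := by
    rw [← q_mul, ← Matrix.add_apply, ← e]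
  change PadicInt.toZMod (x i k) = PadicInt.toZMod (y i k)
  rw [h1, map_add, map_mul, pow_one, map_natCast, ZMod.natCast_self, zero_mul, add_zero]

theorem exists_lim (h : ℕ → Matrix (Fin N) (Fin N) ℤ_[q]) :
    ∃ t : Matrix (Fin N) (Fin N) ℤ_[q], ∀ j k0 : ℕ, ∃ k, k0 ≤ k ∧ Dv q j (h k - t) := by
  obtain ⟨t, ψ, hψ, hlim⟩ := CompactSpace.tendsto_subseq
    (fun n => (fun i k => h n i k : Fin N → Fin N → ℤ_[q]))
  refine ⟨Matrix.of t, fun j k0 => ?_⟩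
  have hq0 : (0 : ℝ) < (q : ℝ) ^ (-(j : ℤ)) := by
    have : (0 : ℝ) < q := by exact_mod_cast (Fact.out : q.Prime).pos
    positivity
  have h1 := (Metric.tendsto_nhds.1 hlim _ hq0).and (eventually_ge_atTop k0)
  obtain ⟨n, hn1, hn2⟩ := h1.exists
  refine ⟨ψ n, hn2.trans (hψ.id_le n), ?_⟩
  rw [dv_iff]
  intro i k
  rw [dvd_iff_norm, Matrix.sub_apply, Matrix.of_apply, ← dist_eq_norm]
  refine le_trans ?_ hn1.le
  exact (dist_le_pi_dist (h (ψ n) i) (t i) k).trans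
    (dist_le_pi_dist (fun i k => h (ψ n) i k) t i)

end TEIx

open TEIx

theorem tei : TEI := by
  intro q l N _ hl hlq G _ φ g hM1 hM2
  have : Fact l.Prime := ⟨hl⟩
  set M : Matrix (Fin N) (Fin N) ℤ_[q] := (φ g).val with hM
  obtain ⟨t, ht⟩ := exists_lim fun k => M ^ q ^ ((l - 1) * k)
  have hml : mz q (M ^ l) = 1 := by
    unfold mz at hM1 ⊢
    rw [map_pow, hM1]
  have hA : ∀ k, Dv q k ((M ^ q ^ ((l - 1) * k)) ^ l - 1) := by
    intro k
    have h1 := lift (dv_of_mz hml) ((l - 1) * k)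
    rw [← pow_mul, mul_comm l, pow_mul] at h1
    refine h1.mono ?_
    have := hl.two_le
    have h2 : 1 * k ≤ (l - 1) * k := Nat.mul_le_mul_right k (by omega)
    omega
  refine ⟨t, fun j => ?_, ?_, ?_⟩
  · obtain ⟨k, -, a, ha⟩ := ht j 0
    refine ⟨g ^ q ^ ((l - 1) * k), a, ?_⟩
    rw [map_pow, Units.val_pow_eq_pow_val, ← ha]
    abel
  · rw [← sub_eq_zero]
    refine eq_zero_of_dv fun j => ?_
    obtain ⟨k, hk, hd⟩ := ht j j
    have h1 := (pow_congr hd l).neg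
    have h2 := (hA k).mono hk
    have e : t ^ l - 1 = -((M ^ q ^ ((l - 1) * k)) ^ l - t ^ l) +
        ((M ^ q ^ ((l - 1) * k)) ^ l - 1) := by abel
    rw [e]
    exact h1.add h2
  · intro ht1
    obtain ⟨k, -, hd⟩ := ht 1 0
    have h1 := mz_of_dv hd
    have h2 : mz q (M ^ q ^ ((l - 1) * k)) = mz q M := by
      have e : mz q (M ^ q ^ ((l - 1) * k)) = (mz q M) ^ q ^ ((l - 1) * k) := by
        unfold mz
        rw [map_pow]
      rw [e, pow_eq_pow_mod _ hM1]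
      have h3 : q ^ ((l - 1) * k) % l = 1 % l := by
        have h4 : ((q ^ ((l - 1) * k) : ℕ) : ZMod l) = ((1 : ℕ) : ZMod l) := by
          push_cast
          have h5 : (q : ZMod l) ≠ 0 := by
            rw [Ne, ZMod.natCast_eq_zero_iff]
            intro h6
            exact hlq ((Nat.prime_dvd_prime_iff_eq hl (Fact.out : q.Prime)).1 h6)
          rw [pow_mul, ZMod.pow_card_sub_one_eq_one h5, one_pow]
        exact (ZMod.natCast_eq_natCast_iff' _ _ _).1 h4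
      rw [h3, Nat.mod_eq_of_lt hl.one_lt, pow_one]
    apply hM2
    rw [← h2, h1, ht1]
    unfold mz
    exact map_one _

end Pool.Agent.H320.DA
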